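import Pool.Agent.R487.Rig.Pot

/-!
# A rigid part in which each other vertex has two neighbours: upper bound for the motions
(helper487)
-/

set_option autoImplicit false

namespace Pool.Agent.R487.Rig

open Finset Pool.Agent.H789R5 Pool.Agent.H283R2.DR Pool.Agent.TH349.Rig

variable {V : Type}

/-- the edges of `G` between vertices outside `R` -/
def outer (G : SimpleGraph V) (R : Finset V) : SimpleGraph V where
  Adj a b := G.Adj a b ∧ a ∉ R ∧ b ∉ R
  symm := ⟨fun _ _ h => ⟨h.1.symm, h.2.2, h.2.1⟩⟩
  loopless := ⟨fun _ h => h.1.ne rfl⟩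

open Classical in
/-- the neighbours of `v` in `R` -/
noncomputable def nb (G : SimpleGraph V) (R : Finset V) (v : V) : Finset V := R.filter (G.Adj v)

/-- A component of `G - R` is bad if each of its vertices has exactly two neighbours in `R` and
each edge between two vertices with different neighbours in `R` is a bridge. -/
def IsBad (G : SimpleGraph V) (R : Finset V) (C : (outer G R).ConnectedComponent) : Prop :=
  ∀ v, (outer G R).connectedComponentMk v = C → v ∉ R ∧ (nb G R v).card = 2 ∧
    ∀ w, (outer G R).Adj v w → nb G R v ≠ nb G R w → (outer G R).IsBridge s(v, w)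

theorem mem_nb {G : SimpleGraph V} {R : Finset V} {v a : V} : a ∈ nb G R v ↔ a ∈ R ∧ G.Adj v a := by
  classical
  unfold nb
  rw [mem_filter]

theorem outer_le (G : SimpleGraph V) (R : Finset V) : outer G R ≤ G := fun _ _ h => h.1

theorem reach_out {G : SimpleGraph V} {R : Finset V} {v w : V} (h : (outer G R).Reachable v w)
    (hv : v ∉ R) : w ∉ R := by
  obtain ⟨P⟩ := h
  induction P with
  | nil => exact hv
  | cons h _ ih => exact ih h.2.2

theorem reach_in {G : SimpleGraph V} {R : Finset V} {v w : V} (h : (outer G R).Reachable v w)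
    (hv : v ∈ R) : w = v := by
  obtain ⟨P⟩ := h
  cases P with
  | nil => rfl
  | cons h _ => exact absurd hv h.2.1

/-- a walk avoiding `u` -/
theorem reach_avoid {K : SimpleGraph V} {u : V} (K' : SimpleGraph V)
    (hK : ∀ a b, K.Adj a b → a ≠ u → b ≠ u → K'.Adj a b) {z w : V} (P : K.Walk z w)
    (hu : u ∉ P.support) : K'.Reachable z w := by
  induction P with
  | nil => exact SimpleGraph.Reachable.refl _
  | @cons a b c h P ih =>
    rw [SimpleGraph.Walk.support_cons, List.mem_cons, not_or] at hu
    refine (SimpleGraph.Adj.reachable (hK a b h (fun h => hu.1 h.symm) ?_)).trans (ih hu.2)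
    rintro rfl
    exact hu.2 P.start_mem_support

variable [Fintype V]

open Classical in
theorem two_of_dom {G : SimpleGraph V} {R : Finset V} (hdom : ∀ v ∉ R, 2 ≤ (nb G R v).card)
    {v : V} (hv : v ∉ R) : ∃ a ∈ R, ∃ b ∈ R, a ≠ b ∧ G.Adj v a ∧ G.Adj v b := by
  obtain ⟨a, ha, b, hb, hab⟩ := one_lt_card.1 (hdom v hv)
  rw [mem_nb] at ha hb
  exact ⟨a, ha.1, b, hb.1, hab, ha.2, hb.2⟩

open Classical in
/-- adding a component costs at most one degree of freedom -/
theorem add_any {c : ℕ} {p : V → Fin 3 → ℝ} (hp : MG p) {G : SimpleGraph V} {R U W : Finset V}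
    (hdom : ∀ v ∉ R, 2 ≤ (nb G R v).card) (hRU : R ⊆ U) {v₀ : V} (hv : v₀ ∉ U)
    (hr : rc c p G U) (hW : ∀ v, v ∈ W ↔ v ∈ U ∨ (outer G R).Reachable v₀ v) :
    rc (c + 1) p G W := by
  have hv' : v₀ ∉ R := fun h => hv (hRU h)
  obtain ⟨a, ha, b, hb, hab, h1, h2⟩ := two_of_dom hdom hv'
  have e := rc_ext0' hp (T := {a, b}) hv (by
      intro z hz
      simp only [mem_insert, mem_singleton] at hz
      rcases hz with rfl | rfl
      · exact hRU ha
      · exact hRU hb) (card_pair hab) (by
      intro z hz
      simp only [mem_insert, mem_singleton] at hz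
      rcases hz with rfl | rfl
      · exact h1
      · exact h2) hr
  refine grow_to hp (outer_le G R) (fun v w hvw => ⟨hvw.2.1, two_of_dom hdom hvw.2.1⟩) v₀
    (hRU.trans (subset_insert _ _)) (mem_insert_self _ _) e ?_
  intro z
  rw [hW, mem_insert]
  constructor
  · rintro (h | h)
    · exact Or.inl (Or.inr h)
    · exact Or.inr h
  · rintro ((rfl | h) | h)
    · exact Or.inr (SimpleGraph.Reachable.refl _)
    · exact Or.inl h
    · exact Or.inr h

open Classical in
/-- a component with a vertex with three neighbours in `R` -/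
theorem add_three {c : ℕ} {p : V → Fin 3 → ℝ} (hp : MG p) {G : SimpleGraph V} {R U W : Finset V}
    (hdom : ∀ v ∉ R, 2 ≤ (nb G R v).card) (hRU : R ⊆ U) {v₀ : V} (hv : v₀ ∉ U)
    (h3 : 3 ≤ (nb G R v₀).card) (hr : rc c p G U)
    (hW : ∀ v, v ∈ W ↔ v ∈ U ∨ (outer G R).Reachable v₀ v) : rc c p G W := by
  obtain ⟨T, hT, hT3⟩ := exists_subset_card_eq h3
  have e := rc_ext0 hp (T := T) hv (fun z hz => hRU (mem_nb.1 (hT hz)).1) hT3
    (fun z hz => (mem_nb.1 (hT hz)).2) hr
  refine grow_to hp (outer_le G R) (fun v w hvw => ⟨hvw.2.1, two_of_dom hdom hvw.2.1⟩) v₀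
    (hRU.trans (subset_insert _ _)) (mem_insert_self _ _) e ?_
  intro z
  rw [hW, mem_insert]
  constructor
  · rintro (h | h)
    · exact Or.inl (Or.inr h)
    · exact Or.inr h
  · rintro ((rfl | h) | h)
    · exact Or.inr (SimpleGraph.Reachable.refl _)
    · exact Or.inl h
    · exact Or.inr h

open Classical in
/-- a component with an edge on a cycle whose ends have different pairs -/
theorem add_cycle {c : ℕ} {p : V → Fin 3 → ℝ} (hp : MG p) {G : SimpleGraph V} {R U W : Finset V}
    (hdom : ∀ v ∉ R, 2 ≤ (nb G R v).card) (hRU : R ⊆ U) {u w : V}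
    (hU : ∀ v, (outer G R).Reachable u v → v ∉ U) (huw : (outer G R).Adj u w)
    (h2 : (nb G R u).card = 2) (h2' : (nb G R w).card = 2) (hne : nb G R u ≠ nb G R w)
    (hb : ¬ (outer G R).IsBridge s(u, w)) (hr : rc c p G U)
    (hW : ∀ v, v ∈ W ↔ v ∈ U ∨ (outer G R).Reachable u v) : rc c p G W := by
  -- the new edge
  obtain ⟨x, hxu, hxw⟩ : ∃ x, x ∈ nb G R u ∧ x ∉ nb G R w := by
    by_contra hcon
    push Not at hcon
    exact hne (eq_of_subset_of_card_le hcon (by omega))
  have hxR := (mem_nb.1 hxu).1
  have huR : u ∉ R := huw.2.1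
  have hwR : w ∉ R := huw.2.2
  have hwx : w ≠ x := fun h => hwR (h ▸ hxR)
  have huU : u ∉ U := hU u (SimpleGraph.Reachable.refl _)
  have hwU : w ∉ U := hU w huw.reachable
  set G' := G ⊔ SimpleGraph.edge w x with hG'
  have hwx' : G'.Adj w x := Or.inr (by rw [SimpleGraph.edge_adj]; exact ⟨Or.inl ⟨rfl, rfl⟩, hwx⟩)
  have e1 : rc c p G' U := rc_mono (fun a _ b _ h => Or.inl h) hr
  have e2 : rc c p G' (insert w U) := by
    refine rc_ext0 hp (T := insert x (nb G R w)) hwU ?_ ?_ ?_ e1
    · intro z hz
      rw [mem_insert] at hz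
      rcases hz with rfl | hz
      · exact hRU hxR
      · exact hRU (mem_nb.1 hz).1
    · rw [card_insert_of_notMem hxw, h2']
    · intro z hz
      rw [mem_insert] at hz
      rcases hz with rfl | hz
      · exact hwx'
      · exact Or.inl (mem_nb.1 hz).2
  -- the graph without `u`
  let H : SimpleGraph V :=
    { Adj := fun a b => (outer G R).Adj a b ∧ a ≠ u ∧ b ≠ u
      symm := ⟨fun _ _ h => ⟨h.1.symm, h.2.2, h.2.1⟩⟩
      loopless := ⟨fun _ h => h.1.ne rfl⟩ }
  have hHo : H ≤ outer G R := fun _ _ h => h.1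
  set U₁ : Finset V := univ.filter (fun v => v ∈ insert w U ∨ H.Reachable w v) with hU₁
  have mU₁ : ∀ v, v ∈ U₁ ↔ v ∈ insert w U ∨ H.Reachable w v := fun v => by
    rw [hU₁, mem_filter]
    exact ⟨fun h => h.2, fun h => ⟨mem_univ _, h⟩⟩
  have e3 : rc c p G' U₁ :=
    grow_to hp (G := G') (H := H) (R := R) (fun a b h => Or.inl (outer_le G R (hHo h)))
    (fun v w hvw => ⟨hvw.1.2.1, by
      obtain ⟨a, ha, b, hb, hab, h1, h2⟩ := two_of_dom hdom hvw.1.2.1
      exact ⟨a, ha, b, hb, hab, Or.inl h1, Or.inl h2⟩⟩) w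
    (hRU.trans (subset_insert _ _)) (mem_insert_self _ _) e2 mU₁
  have huU₁ : u ∉ U₁ := by
    rw [mU₁, mem_insert, not_or, not_or]
    refine ⟨⟨huw.ne, huU⟩, ?_⟩
    intro h
    obtain ⟨P⟩ := h.symm
    cases P with
    | nil => exact huw.ne rfl
    | cons h _ => exact h.2.1 rfl
  -- the second neighbour of `u` on the cycle
  obtain ⟨z, huz, hzw, hz⟩ : ∃ z, (outer G R).Adj u z ∧ z ≠ w ∧ H.Reachable w z := by
    rw [SimpleGraph.isBridge_iff, not_not] at hb
    obtain ⟨P, hP⟩ := hb.exists_isPath
    cases P with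
    | nil => exact absurd rfl huw.ne
    | @cons _ z _ h P =>
      rw [SimpleGraph.deleteEdges_adj] at h
      rw [SimpleGraph.Walk.cons_isPath_iff] at hP
      refine ⟨z, h.1, ?_, ?_⟩
      · rintro rfl
        exact h.2 rfl
      · refine (reach_avoid H ?_ P hP.2).symm
        intro a b hab ha hb'
        exact ⟨(SimpleGraph.deleteEdges_le _) hab, ha, hb'⟩
  have hzR : z ∉ R := huz.2.2
  have hRU₁ : R ⊆ U₁ := fun a ha => (mU₁ a).2 (Or.inl (mem_insert_of_mem (hRU ha)))
  have e4 : rc c p G (insert u U₁) := by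
    refine rc_ext1 hp (N := insert w (insert z (nb G R u))) (x := w) (y := x) huU₁ ?_ ?_ ?_
      (mem_insert_self _ _) (mem_insert_of_mem (mem_insert_of_mem hxu)) hwx e3
    · intro y hy
      rw [mem_insert, mem_insert] at hy
      rcases hy with rfl | rfl | hy
      · exact (mU₁ _).2 (Or.inl (mem_insert_self _ _))
      · exact (mU₁ _).2 (Or.inr hz)
      · exact hRU₁ (mem_nb.1 hy).1
    · rw [card_insert_of_notMem, card_insert_of_notMem, h2]
      · exact fun h => hzR (mem_nb.1 h).1
      · rw [mem_insert, not_or]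
        exact ⟨hzw.symm, fun h => hwR (mem_nb.1 h).1⟩
    · intro y hy
      rw [mem_insert, mem_insert] at hy
      rcases hy with rfl | rfl | hy
      · exact huw.1
      · exact huz.1
      · exact (mem_nb.1 hy).2
  refine grow_to hp (outer_le G R) (fun v w hvw => ⟨hvw.2.1, two_of_dom hdom hvw.2.1⟩) u
    (hRU₁.trans (subset_insert _ _)) (mem_insert_self _ _) e4 ?_
  intro y
  rw [hW, mem_insert, mU₁, mem_insert]
  constructor
  · rintro (h | h)
    · exact Or.inl (Or.inr (Or.inl (Or.inr h)))
    · exact Or.inr h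
  · rintro ((rfl | (rfl | h) | h) | h)
    · exact Or.inr (SimpleGraph.Reachable.refl _)
    · exact Or.inr huw.reachable
    · exact Or.inl h
    · exact Or.inr (huw.reachable.trans (h.mono hHo))
    · exact Or.inr h

open Classical in
/-- adding a component which is not bad is free -/
theorem add_good {c : ℕ} {p : V → Fin 3 → ℝ} (hp : MG p) {G : SimpleGraph V} {R U W : Finset V}
    (hdom : ∀ v ∉ R, 2 ≤ (nb G R v).card) (hRU : R ⊆ U) {v₀ : V}
    (hU : ∀ v, (outer G R).Reachable v₀ v → v ∉ U)
    (hbad : ¬ IsBad G R ((outer G R).connectedComponentMk v₀)) (hr : rc c p G U)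
    (hW : ∀ v, v ∈ W ↔ v ∈ U ∨ (outer G R).Reachable v₀ v) : rc c p G W := by
  have hv₀ : v₀ ∉ R := fun h => hU v₀ (SimpleGraph.Reachable.refl _) (hRU h)
  have hW' : ∀ v, (outer G R).Reachable v₀ v → ∀ x, x ∈ W ↔ x ∈ U ∨ (outer G R).Reachable v x :=
    fun v hv x => by
      rw [hW]
      exact or_congr Iff.rfl ⟨fun h => hv.symm.trans h, fun h => hv.trans h⟩
  by_cases hall : ∃ v, (outer G R).Reachable v₀ v ∧ 3 ≤ (nb G R v).card
  · obtain ⟨v, hv, h3⟩ := hall
    exact add_three hp hdom hRU (hU v hv) h3 hr (hW' v hv)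
  · push Not at hall
    have h2 : ∀ v, (outer G R).Reachable v₀ v → (nb G R v).card = 2 := by
      intro v hv
      have h1 := hdom v (reach_out hv hv₀)
      have h2 := hall v hv
      omega
    unfold IsBad at hbad
    push Not at hbad
    obtain ⟨v, hv, h⟩ := hbad
    rw [SimpleGraph.ConnectedComponent.eq] at hv
    obtain ⟨w, hvw, hne, hb⟩ := h (reach_out hv.symm hv₀) (h2 v hv.symm)
    exact add_cycle hp hdom hRU (fun x hx => hU x (hv.symm.trans hx)) hvw
      (h2 v hv.symm) (h2 w (hv.symm.trans hvw.reachable)) hne hb hr (hW' v hv.symm)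

open Classical in
/-- the upper bound -/
theorem mo_upper {p : V → Fin 3 → ℝ} (hp : MG p) {G : SimpleGraph V} {R : Finset V}
    (hdom : ∀ v ∉ R, 2 ≤ (nb G R v).card) (hR : rc 6 p G R) :
    mo G p ≤ 6 + Nat.card {C // IsBad G R C} := by
  have key : ∀ s : Finset (outer G R).ConnectedComponent, ∀ W : Finset V,
      (∀ v, v ∈ W ↔ v ∈ R ∨ (outer G R).connectedComponentMk v ∈ s) →
      rc (6 + (s.filter (IsBad G R)).card) p G W := by
    intro s
    induction s using Finset.induction_on with
    | empty =>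
      intro W hW
      have h1 : W = R := by
        ext v
        rw [hW]
        exact ⟨fun h => h.elim id (fun h => absurd h (notMem_empty _)), Or.inl⟩
      rw [h1, filter_empty]
      exact hR
    | insert C s hC ih =>
      intro W hW
      obtain ⟨v₀, hv₀⟩ : ∃ v, (outer G R).connectedComponentMk v = C := C.exists_rep
      subst hv₀
      by_cases hv₀ : v₀ ∈ R
      · have hnb : ¬ IsBad G R ((outer G R).connectedComponentMk v₀) := fun h => (h v₀ rfl).1 hv₀
        rw [filter_insert, if_neg hnb]
        apply ih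
        intro v
        rw [hW, mem_insert, SimpleGraph.ConnectedComponent.eq]
        constructor
        · rintro (h | h | h)
          · exact Or.inl h
          · left
            rw [reach_in h.symm hv₀]
            exact hv₀
          · exact Or.inr h
        · rintro (h | h)
          · exact Or.inl h
          · exact Or.inr (Or.inr h)
      · set U : Finset V := univ.filter
          (fun v => v ∈ R ∨ (outer G R).connectedComponentMk v ∈ s) with hU
        have mU : ∀ v, v ∈ U ↔ v ∈ R ∨ (outer G R).connectedComponentMk v ∈ s := fun v => by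
          rw [hU, mem_filter]
          exact ⟨fun h => h.2, fun h => ⟨mem_univ _, h⟩⟩
        have hRU : R ⊆ U := fun a ha => (mU a).2 (Or.inl ha)
        have hUv : ∀ v, (outer G R).Reachable v₀ v → v ∉ U := by
          intro v hv h
          rw [mU] at h
          rcases h with h | h
          · exact reach_out hv hv₀ h
          · rw [← (SimpleGraph.ConnectedComponent.eq.2 hv)] at h
            exact hC h
        have hWU : ∀ v, v ∈ W ↔ v ∈ U ∨ (outer G R).Reachable v₀ v := by
          intro v
          rw [hW, mem_insert, SimpleGraph.ConnectedComponent.eq, mU]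
          constructor
          · rintro (h | h | h)
            · exact Or.inl (Or.inl h)
            · exact Or.inr h.symm
            · exact Or.inl (Or.inr h)
          · rintro ((h | h) | h)
            · exact Or.inl h
            · exact Or.inr (Or.inr h)
            · exact Or.inr (Or.inl h.symm)
        by_cases hb : IsBad G R ((outer G R).connectedComponentMk v₀)
        · rw [filter_insert, if_pos hb, card_insert_of_notMem (fun h => hC (mem_filter.1 h).1)]
          exact add_any hp hdom hRU (hUv v₀ (SimpleGraph.Reachable.refl _)) (ih U mU) hWU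
        · rw [filter_insert, if_neg hb]
          exact add_good hp hdom hRU hUv hb (ih U mU) hWU
  have h1 := key univ univ (fun v => ⟨fun _ => Or.inr (mem_univ _), fun _ => mem_univ _⟩)
  rw [rc_univ] at h1
  rw [Nat.card_eq_fintype_card, Fintype.card_subtype]
  exact h1

end Pool.Agent.R487.Rig
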