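import Pool.Agent.R487.Rig.Step

/-!
# Rigid cores of strong products: certificates (helper487)
-/

set_option autoImplicit false

namespace Pool.Agent.R487.Rig

open Finset Pool.Agent.H789R5 Pool.Agent.H283R2.DR Pool.Agent.TH349.Rig Pool.Agent.TH409.RG

/-- the graph with the given edges -/
def gr {n : ℕ} (L : List (Fin n × Fin n)) : SimpleGraph (Fin n) where
  Adj a b := a ≠ b ∧ ((a, b) ∈ L ∨ (b, a) ∈ L)
  symm := ⟨fun _ _ h => ⟨h.1.symm, h.2.symm⟩⟩
  loopless := ⟨fun _ h => h.1 rfl⟩

instance {n : ℕ} (L : List (Fin n × Fin n)) : DecidableRel (gr L).Adj :=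
  fun a b => inferInstanceAs (Decidable (a ≠ b ∧ ((a, b) ∈ L ∨ (b, a) ∈ L)))

/-- every graph which contains the image of `gr L` is rigid on the image of `U` -/
def Cert {V : Type} [Fintype V] (p : V → Fin 3 → ℝ) {n : ℕ} (φ : Fin n ↪ V)
    (L : List (Fin n × Fin n)) (U : Finset (Fin n)) : Prop :=
  ∀ G : SimpleGraph V, (∀ a b, (gr L).Adj a b → G.Adj (φ a) (φ b)) → ri p G (U.map φ)

section

variable {V : Type} [Fintype V] {p : V → Fin 3 → ℝ} {n : ℕ} {φ : Fin n ↪ V}
  {L : List (Fin n × Fin n)}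

theorem c0 (hp : MG p) {U T : Finset (Fin n)} {v : Fin n} (hv : v ∉ U) (hTU : T ⊆ U)
    (hT : T.card = 3) (hadj : ∀ z ∈ T, (gr L).Adj v z) (hr : Cert p φ L U) :
    Cert p φ L (insert v U) := by
  classical
  intro G hG
  rw [map_insert]
  have h := ri_ext0 hp (v := φ v) (U := U.map φ) (T := T.map φ) (G := G) ?_ (map_subset_map.2 hTU)
    (by rw [card_map, hT]) ?_ (hr G hG)
  · convert h
  · rw [mem_map']
    exact hv
  · intro z hz
    rw [mem_map] at hz
    obtain ⟨z, hz, rfl⟩ := hz
    exact hG v z (hadj z hz)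

theorem c1 (hp : MG p) {U N : Finset (Fin n)} {v x y : Fin n} (hv : v ∉ U) (hNU : N ⊆ U)
    (hN : N.card = 4) (hadj : ∀ z ∈ N, (gr L).Adj v z) (hx : x ∈ N) (hy : y ∈ N) (hxy : x ≠ y)
    (hr : Cert p φ ((x, y) :: L) U) : Cert p φ L (insert v U) := by
  classical
  intro G hG
  rw [map_insert]
  have h := ri_ext1 hp (v := φ v) (U := U.map φ) (N := N.map φ) (G := G) (x := φ x) (y := φ y)
    ?_ (map_subset_map.2 hNU) (by rw [card_map, hN]) ?_ (mem_map_of_mem φ hx) (mem_map_of_mem φ hy)
    (fun h => hxy (φ.injective h)) (hr _ ?_)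
  · convert h
  · rw [mem_map']
    exact hv
  · intro z hz
    rw [mem_map] at hz
    obtain ⟨z, hz, rfl⟩ := hz
    exact hG v z (hadj z hz)
  · rintro a b ⟨hab, h | h⟩
    · rcases List.mem_cons.1 h with h | h
      · right
        rw [SimpleGraph.edge_adj]
        obtain ⟨rfl, rfl⟩ := Prod.ext_iff.1 h
        exact ⟨Or.inl ⟨rfl, rfl⟩, fun h => hab (φ.injective h)⟩
      · exact Or.inl (hG a b ⟨hab, Or.inl h⟩)
    · rcases List.mem_cons.1 h with h | h
      · right
        rw [SimpleGraph.edge_adj]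
        obtain ⟨rfl, rfl⟩ := Prod.ext_iff.1 h
        exact ⟨Or.inr ⟨rfl, rfl⟩, fun h => hab (φ.injective h)⟩
      · exact Or.inl (hG a b ⟨hab, Or.inr h⟩)

theorem ctri (hp : MG p) {x y z : Fin n} (hxy : (gr L).Adj x y) (hxz : (gr L).Adj x z)
    (hyz : (gr L).Adj y z) : Cert p φ L {z, y, x} := by
  classical
  intro G hG
  have h := ri_tri hp (hG x y hxy) (hG x z hxz) (hG y z hyz)
  rw [map_insert, map_insert, map_singleton]
  convert h

end

def LPP : List (Fin 16 × Fin 16) :=
  [(0, 1), (0, 4), (0, 5), (1, 2), (1, 4), (1, 5), (1, 6), (2, 3), (2, 5), (2, 6), (2, 7), (3, 6), (3, 7), (4, 5), (4, 8), (4, 9), (5, 6), (5, 8), (5, 9), (5, 10), (6, 7), (6, 9), (6, 10), (6, 11), (7, 10), (7, 11), (8, 9), (8, 12), (8, 13), (9, 10), (9, 12), (9, 13), (9, 14), (10, 11), (10, 13), (10, 14), (10, 15), (11, 14), (11, 15), (12, 13), (13, 14), (14, 15)]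

theorem certPP {V : Type} [Fintype V] {p : V → Fin 3 → ℝ} (hp : MG p)
    (φ : Fin 16 ↪ V) : Cert p φ LPP univ := by
  have e : (univ : Finset (Fin 16)) = {3, 15, 0, 12, 11, 7, 2, 1, 4, 8, 13, 14, 10, 9, 6, 5} := by decide
  rw [e]
  refine c0 hp (T := {2, 6, 7}) (by decide) (by decide) (by decide) (by decide) ?_
  refine c0 hp (T := {10, 11, 14}) (by decide) (by decide) (by decide) (by decide) ?_
  refine c0 hp (T := {1, 4, 5}) (by decide) (by decide) (by decide) (by decide) ?_
  refine c0 hp (T := {8, 9, 13}) (by decide) (by decide) (by decide) (by decide) ?_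
  refine c1 hp (N := {6, 7, 10, 14}) (x := 6) (y := 14) (by decide) (by decide) (by decide) (by decide) (by decide)
    (by decide) (by decide) ?_
  refine c0 hp (T := {2, 6, 10}) (by decide) (by decide) (by decide) (by decide) ?_
  refine c0 hp (T := {1, 5, 6}) (by decide) (by decide) (by decide) (by decide) ?_
  refine c0 hp (T := {4, 5, 6}) (by decide) (by decide) (by decide) (by decide) ?_
  refine c0 hp (T := {5, 8, 9}) (by decide) (by decide) (by decide) (by decide) ?_
  refine c0 hp (T := {5, 9, 13}) (by decide) (by decide) (by decide) (by decide) ?_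
  refine c0 hp (T := {9, 10, 14}) (by decide) (by decide) (by decide) (by decide) ?_
  refine c0 hp (T := {6, 9, 10}) (by decide) (by decide) (by decide) (by decide) ?_
  refine c0 hp (T := {5, 6, 9}) (by decide) (by decide) (by decide) (by decide) ?_
  exact ctri hp (x := 5) (y := 6) (z := 9) (by decide) (by decide) (by decide)

def LPS : List (Fin 16 × Fin 16) :=
  [(0, 1), (0, 2), (0, 3), (0, 4), (0, 5), (0, 6), (0, 7), (1, 4), (1, 5), (2, 4), (2, 6), (3, 4), (3, 7), (4, 5), (4, 6), (4, 7), (4, 8), (4, 9), (4, 10), (4, 11), (5, 8), (5, 9), (6, 8), (6, 10), (7, 8), (7, 11), (8, 9), (8, 10), (8, 11), (8, 12), (8, 13), (8, 14), (8, 15), (9, 12), (9, 13), (10, 12), (10, 14), (11, 12), (11, 15), (12, 13), (12, 14), (12, 15)]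

theorem certPS {V : Type} [Fintype V] {p : V → Fin 3 → ℝ} (hp : MG p)
    (φ : Fin 16 ↪ V) : Cert p φ LPS univ := by
  have e : (univ : Finset (Fin 16)) = {15, 14, 1, 2, 13, 3, 7, 11, 12, 10, 9, 6, 8, 5, 4, 0} := by decide
  rw [e]
  refine c0 hp (T := {8, 11, 12}) (by decide) (by decide) (by decide) (by decide) ?_
  refine c0 hp (T := {8, 10, 12}) (by decide) (by decide) (by decide) (by decide) ?_
  refine c0 hp (T := {0, 4, 5}) (by decide) (by decide) (by decide) (by decide) ?_
  refine c0 hp (T := {0, 4, 6}) (by decide) (by decide) (by decide) (by decide) ?_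
  refine c0 hp (T := {8, 9, 12}) (by decide) (by decide) (by decide) (by decide) ?_
  refine c0 hp (T := {0, 4, 7}) (by decide) (by decide) (by decide) (by decide) ?_
  refine c1 hp (N := {0, 4, 8, 11}) (x := 0) (y := 8) (by decide) (by decide) (by decide) (by decide) (by decide)
    (by decide) (by decide) ?_
  refine c0 hp (T := {4, 8, 12}) (by decide) (by decide) (by decide) (by decide) ?_
  refine c0 hp (T := {8, 9, 10}) (by decide) (by decide) (by decide) (by decide) ?_
  refine c0 hp (T := {4, 6, 8}) (by decide) (by decide) (by decide) (by decide) ?_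
  refine c0 hp (T := {4, 5, 8}) (by decide) (by decide) (by decide) (by decide) ?_
  refine c0 hp (T := {0, 4, 8}) (by decide) (by decide) (by decide) (by decide) ?_
  refine c0 hp (T := {0, 4, 5}) (by decide) (by decide) (by decide) (by decide) ?_
  exact ctri hp (x := 0) (y := 4) (z := 5) (by decide) (by decide) (by decide)

def LSP : List (Fin 16 × Fin 16) :=
  [(0, 1), (0, 4), (0, 5), (0, 8), (0, 9), (0, 12), (0, 13), (1, 2), (1, 4), (1, 5), (1, 6), (1, 8), (1, 9), (1, 10), (1, 12), (1, 13), (1, 14), (2, 3), (2, 5), (2, 6), (2, 7), (2, 9), (2, 10), (2, 11), (2, 13), (2, 14), (2, 15), (3, 6), (3, 7), (3, 10), (3, 11), (3, 14), (3, 15), (4, 5), (5, 6), (6, 7), (8, 9), (9, 10), (10, 11), (12, 13), (13, 14), (14, 15)]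

theorem certSP {V : Type} [Fintype V] {p : V → Fin 3 → ℝ} (hp : MG p)
    (φ : Fin 16 ↪ V) : Cert p φ LSP univ := by
  have e : (univ : Finset (Fin 16)) = {15, 4, 7, 8, 12, 11, 5, 6, 3, 14, 13, 0, 2, 10, 9, 1} := by decide
  rw [e]
  refine c0 hp (T := {2, 3, 14}) (by decide) (by decide) (by decide) (by decide) ?_
  refine c0 hp (T := {0, 1, 5}) (by decide) (by decide) (by decide) (by decide) ?_
  refine c0 hp (T := {2, 3, 6}) (by decide) (by decide) (by decide) (by decide) ?_
  refine c0 hp (T := {0, 1, 9}) (by decide) (by decide) (by decide) (by decide) ?_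
  refine c0 hp (T := {0, 1, 13}) (by decide) (by decide) (by decide) (by decide) ?_
  refine c0 hp (T := {2, 3, 10}) (by decide) (by decide) (by decide) (by decide) ?_
  refine c1 hp (N := {0, 1, 2, 6}) (x := 0) (y := 2) (by decide) (by decide) (by decide) (by decide) (by decide)
    (by decide) (by decide) ?_
  refine c0 hp (T := {1, 2, 3}) (by decide) (by decide) (by decide) (by decide) ?_
  refine c0 hp (T := {2, 10, 14}) (by decide) (by decide) (by decide) (by decide) ?_
  refine c0 hp (T := {1, 2, 13}) (by decide) (by decide) (by decide) (by decide) ?_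
  refine c0 hp (T := {0, 1, 2}) (by decide) (by decide) (by decide) (by decide) ?_
  refine c0 hp (T := {1, 2, 9}) (by decide) (by decide) (by decide) (by decide) ?_
  refine c0 hp (T := {1, 9, 10}) (by decide) (by decide) (by decide) (by decide) ?_
  exact ctri hp (x := 1) (y := 9) (z := 10) (by decide) (by decide) (by decide)

def LSS : List (Fin 16 × Fin 16) :=
  [(0, 1), (0, 2), (0, 3), (0, 4), (0, 5), (0, 6), (0, 7), (0, 8), (0, 9), (0, 10), (0, 11), (0, 12), (0, 13), (0, 14), (0, 15), (1, 4), (1, 5), (1, 8), (1, 9), (1, 12), (1, 13), (2, 4), (2, 6), (2, 8), (2, 10), (2, 12), (2, 14), (3, 4), (3, 7), (3, 8), (3, 11), (3, 12), (3, 15), (4, 5), (4, 6), (4, 7), (8, 9), (8, 10), (8, 11), (12, 13), (12, 14), (12, 15)]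

theorem certSS {V : Type} [Fintype V] {p : V → Fin 3 → ℝ} (hp : MG p)
    (φ : Fin 16 ↪ V) : Cert p φ LSS univ := by
  have e : (univ : Finset (Fin 16)) = {15, 9, 10, 7, 14, 5, 6, 11, 13, 4, 2, 12, 0, 8, 3, 1} := by decide
  rw [e]
  refine c0 hp (T := {0, 3, 12}) (by decide) (by decide) (by decide) (by decide) ?_
  refine c0 hp (T := {0, 1, 8}) (by decide) (by decide) (by decide) (by decide) ?_
  refine c0 hp (T := {0, 2, 8}) (by decide) (by decide) (by decide) (by decide) ?_
  refine c0 hp (T := {0, 3, 4}) (by decide) (by decide) (by decide) (by decide) ?_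
  refine c0 hp (T := {0, 2, 12}) (by decide) (by decide) (by decide) (by decide) ?_
  refine c0 hp (T := {0, 1, 4}) (by decide) (by decide) (by decide) (by decide) ?_
  refine c0 hp (T := {0, 2, 4}) (by decide) (by decide) (by decide) (by decide) ?_
  refine c0 hp (T := {0, 3, 8}) (by decide) (by decide) (by decide) (by decide) ?_
  refine c0 hp (T := {0, 1, 12}) (by decide) (by decide) (by decide) (by decide) ?_
  refine c1 hp (N := {0, 1, 2, 3}) (x := 1) (y := 3) (by decide) (by decide) (by decide) (by decide) (by decide)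
    (by decide) (by decide) ?_
  refine c0 hp (T := {0, 8, 12}) (by decide) (by decide) (by decide) (by decide) ?_
  refine c0 hp (T := {0, 1, 3}) (by decide) (by decide) (by decide) (by decide) ?_
  refine c0 hp (T := {1, 3, 8}) (by decide) (by decide) (by decide) (by decide) ?_
  exact ctri hp (x := 1) (y := 3) (z := 8) (by decide) (by decide) (by decide)

def LC : List (Fin 9 × Fin 9) :=
  [(0, 1), (0, 3), (0, 4), (1, 2), (1, 3), (1, 4), (1, 5), (1, 7), (2, 4), (2, 5), (3, 4), (3, 6), (3, 7), (4, 5), (4, 6), (4, 7), (4, 8), (5, 7), (5, 8), (6, 7), (7, 8)]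

theorem certC {V : Type} [Fintype V] {p : V → Fin 3 → ℝ} (hp : MG p)
    (φ : Fin 9 ↪ V) : Cert p φ LC univ := by
  have e : (univ : Finset (Fin 9)) = {2, 0, 8, 5, 1, 3, 7, 6, 4} := by decide
  rw [e]
  refine c0 hp (T := {1, 4, 5}) (by decide) (by decide) (by decide) (by decide) ?_
  refine c0 hp (T := {1, 3, 4}) (by decide) (by decide) (by decide) (by decide) ?_
  refine c0 hp (T := {4, 5, 7}) (by decide) (by decide) (by decide) (by decide) ?_
  refine c0 hp (T := {1, 4, 7}) (by decide) (by decide) (by decide) (by decide) ?_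
  refine c0 hp (T := {3, 4, 7}) (by decide) (by decide) (by decide) (by decide) ?_
  refine c0 hp (T := {4, 6, 7}) (by decide) (by decide) (by decide) (by decide) ?_
  exact ctri hp (x := 4) (y := 6) (z := 7) (by decide) (by decide) (by decide)

end Pool.Agent.R487.Rig
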