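import Pool.Agent.R487.Rig.Three

/-!
# The generic rank of strong products: assembly (helper487)
-/

set_option autoImplicit false

namespace Pool.Agent.R487.Rig

open Finset Pool.Agent.H789R5 Pool.Agent.H283R2.DR Pool.Agent.TH349.Rig Pool.Agent.TH409.RG

variable {α β : Type} [Fintype α] [Fintype β] {G₁ : SimpleGraph α} {G₂ : SimpleGraph β}

open Classical in
omit [Fintype α] [Fintype β] in
theorem single_prod (x : α) (c l r : β) :
    ({x} ×ˢ {c, l, r} : Finset (α × β)) = {(x, r), (x, l), (x, c)} := by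
  ext ⟨a, b⟩
  simp only [mem_product, mem_singleton, mem_insert, Prod.mk.injEq]
  constructor
  · rintro ⟨h, h1 | h1 | h1⟩
    · exact Or.inr (Or.inr ⟨h, h1⟩)
    · exact Or.inr (Or.inl ⟨h, h1⟩)
    · exact Or.inl ⟨h, h1⟩
  · rintro (⟨h, h1⟩ | ⟨h, h1⟩ | ⟨h, h1⟩)
    · exact ⟨h, Or.inr (Or.inr h1)⟩
    · exact ⟨h, Or.inr (Or.inl h1)⟩
    · exact ⟨h, Or.inl h1⟩

open Classical in
theorem rc_path {V : Type} [Fintype V] [inst : DecidableEq V] {p : V → Fin 3 → ℝ} (hp : MG p)
    {G : SimpleGraph V} {x y z : V} (hyz : z ≠ y) (h1 : G.Adj y x) (h2 : G.Adj z x) :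
    rc 7 p G {z, y, x} := by
  have hi : inst = fun a b => Classical.propDecidable (a = b) := Subsingleton.elim _ _
  subst hi
  have s1 := mo_step hp (G := G) (U := {x}) (T := {x}) (v := y)
    (by rw [mem_singleton]; exact h1.ne) (Subset.refl _) (by simp) (by simpa using h1)
  have s2 := mo_step hp (G := G) (U := {y, x}) (T := {x}) (v := z)
    (by rw [mem_insert, mem_singleton, not_or]; exact ⟨hyz, h2.ne⟩) (by simp) (by simp)
    (by simpa using h2)
  have s0 := mo_le (ins G {x}) p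
  rw [card_singleton] at s1 s2
  unfold rc
  rw [card_insert_of_notMem (by rw [mem_insert, mem_singleton, not_or]; exact ⟨hyz, h2.ne⟩),
    card_pair h1.ne]
  omega

open Classical in
theorem rc_tri {V : Type} [Fintype V] [inst : DecidableEq V] {p : V → Fin 3 → ℝ} (hp : MG p)
    {G : SimpleGraph V} {x y z : V} (h1 : G.Adj x y) (h2 : G.Adj x z) (h3 : G.Adj y z) :
    rc 6 p G {z, y, x} := by
  have hi : inst = fun a b => Classical.propDecidable (a = b) := Subsingleton.elim _ _
  subst hi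
  exact ri_tri hp h1 h2 h3

open Classical in
theorem three_tri {p : α × β → Fin 3 → ℝ} (hp : MG p) (h1 : G₁.Connected) {c l r : β}
    (hcl : G₂.Adj c l) (hcr : G₂.Adj c r) (hlr : G₂.Adj l r)
    (hU : (univ : Finset β) = {c, l, r}) : mo (strong G₁ G₂) p ≤ 6 := by
  obtain ⟨x⟩ := h1.nonempty
  have a1 : (strong G₁ G₂).Adj (x, c) (x, l) :=
    ⟨fun h => hcl.ne (Prod.ext_iff.1 h).2, Or.inl rfl, Or.inr hcl⟩
  have a2 : (strong G₁ G₂).Adj (x, c) (x, r) :=
    ⟨fun h => hcr.ne (Prod.ext_iff.1 h).2, Or.inl rfl, Or.inr hcr⟩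
  have a3 : (strong G₁ G₂).Adj (x, l) (x, r) :=
    ⟨fun h => hlr.ne (Prod.ext_iff.1 h).2, Or.inl rfl, Or.inr hlr⟩
  have e1 : rc 6 p (strong G₁ G₂) ({x} ×ˢ {c, l, r}) := by
    rw [single_prod]
    exact rc_tri hp a1 a2 a3
  have e2 := growL_all hp (fat_three hlr.ne hcl hcr) h1 _ {x} rfl (singleton_nonempty x) e1
  rw [← hU, univ_product_univ] at e2
  exact rc_univ.1 e2

open Classical in
theorem three_path {p : α × β → Fin 3 → ℝ} (hp : MG p) (h1 : G₁.Connected) {c l r : β}
    (hlr : l ≠ r) (hcl : G₂.Adj c l) (hcr : G₂.Adj c r)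
    (hU : (univ : Finset β) = {c, l, r}) : mo (strong G₁ G₂) p ≤ 7 := by
  obtain ⟨x⟩ := h1.nonempty
  have a1 : (strong G₁ G₂).Adj (x, l) (x, c) :=
    ⟨fun h => hcl.ne (Prod.ext_iff.1 h).2.symm, Or.inl rfl, Or.inr hcl.symm⟩
  have a2 : (strong G₁ G₂).Adj (x, r) (x, c) :=
    ⟨fun h => hcr.ne (Prod.ext_iff.1 h).2.symm, Or.inl rfl, Or.inr hcr.symm⟩
  have nlr : ((x, r) : α × β) ≠ (x, l) := fun h => hlr (Prod.ext_iff.1 h).2.symm
  have e1 : rc 7 p (strong G₁ G₂) ({x} ×ˢ {c, l, r}) := by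
    rw [single_prod]
    exact rc_path hp nlr a1 a2
  have e2 := growL_all hp (fat_three hlr hcl hcr) h1 _ {x} rfl (singleton_nonempty x) e1
  rw [← hU, univ_product_univ] at e2
  exact rc_univ.1 e2

open Classical in
theorem three_cycle {p : α × β → Fin 3 → ℝ} (hp : MG p) (h1 : G₁.Connected)
    (hc1 : ¬ G₁.IsAcyclic) {c l r : β} (hlr : l ≠ r) (hcl : G₂.Adj c l) (hcr : G₂.Adj c r)
    (hU : (univ : Finset β) = {c, l, r}) : mo (strong G₁ G₂) p ≤ 6 := by
  unfold SimpleGraph.IsAcyclic at hc1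
  push Not at hc1
  obtain ⟨u, w, hw⟩ := hc1
  have h3 := hw.three_le_length
  obtain ⟨n, hn⟩ : ∃ n, w.length = n + 3 := ⟨w.length - 3, by omega⟩
  have hinj : ∀ i < n + 3, ∀ j < n + 3, w.getVert i = w.getVert j → i = j := by
    intro i hi j hj h
    exact hw.getVert_injOn' (by rw [Set.mem_ofPred_eq]; omega) (by rw [Set.mem_ofPred_eq]; omega) h
  have hadj : ∀ i < n + 3, G₁.Adj (w.getVert i) (w.getVert (i + 1)) := fun i hi =>
    w.adj_getVert_succ (by omega)
  have hclose : G₁.Adj (w.getVert (n + 2)) (w.getVert 0) := by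
    have h := hadj (n + 2) (by omega)
    have e : w.getVert (n + 2 + 1) = w.getVert 0 := by
      rw [show n + 2 + 1 = w.length by omega, SimpleGraph.Walk.getVert_length,
        SimpleGraph.Walk.getVert_zero]
    rwa [e] at h
  have e0 := cycleCore hp w.getVert hlr hcl hcr n hinj (strong G₁ G₂)
    (fun i hi s t hst => ⟨fun h => (hadj i (by omega)).ne (Prod.ext_iff.1 h).1,
      Or.inr (hadj i (by omega)), hst⟩)
    (fun i hi s t hst => ⟨fun h => hst.ne (Prod.ext_iff.1 h).2, Or.inl rfl, Or.inr hst⟩)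
    ⟨fun h => hclose.ne (Prod.ext_iff.1 h).1, Or.inr hclose, Or.inl rfl⟩
  have e2 := growL_all (c := 6) hp (fat_three hlr hcl hcr) h1 _ _ rfl
    (by simp) e0
  rw [← hU, univ_product_univ] at e2
  exact rc_univ.1 e2

/-! ### Counting the edges -/

open Classical in
theorem degree_strong (x : α × β) : (strong G₁ G₂).degree x + 1 =
    (G₁.degree x.1 + 1) * (G₂.degree x.2 + 1) := by
  have h1 : insert x ((strong G₁ G₂).neighborFinset x) =
      (insert x.1 (G₁.neighborFinset x.1)) ×ˢ (insert x.2 (G₂.neighborFinset x.2)) := by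
    ext y
    simp only [mem_insert, SimpleGraph.mem_neighborFinset, mem_product]
    constructor
    · rintro (rfl | ⟨-, h1, h2⟩)
      · exact ⟨Or.inl rfl, Or.inl rfl⟩
      · exact ⟨h1.imp Eq.symm id, h2.imp Eq.symm id⟩
    · rintro ⟨h1, h2⟩
      by_cases h : y = x
      · exact Or.inl h
      · exact Or.inr ⟨Ne.symm h, h1.imp Eq.symm id, h2.imp Eq.symm id⟩
  have h2 := congrArg Finset.card h1
  rw [card_insert_of_notMem (by simp), card_product, card_insert_of_notMem (by simp),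
    card_insert_of_notMem (by simp)] at h2
  exact h2

theorem edges_strong : 2 * (strong G₁ G₂).edgeSet.ncard + Fintype.card α * Fintype.card β =
    (2 * G₁.edgeSet.ncard + Fintype.card α) * (2 * G₂.edgeSet.ncard + Fintype.card β) := by
  classical
  have key : ∀ {V : Type} [Fintype V] (G : SimpleGraph V),
      2 * G.edgeSet.ncard = ∑ v, G.degree v := by
    intro V _ G
    rw [SimpleGraph.sum_degrees_eq_twice_card_edges, ← SimpleGraph.coe_edgeFinset,
      Set.ncard_coe_finset]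
  rw [key, key, key]
  have h1 : ∀ {V : Type} [Fintype V] (f : V → ℕ), ∑ v, f v + Fintype.card V = ∑ v, (f v + 1) := by
    intro V _ f
    rw [sum_add_distrib]
    simp
  rw [← Fintype.card_prod, h1, h1, h1, sum_mul_sum, ← sum_product']
  exact sum_congr rfl fun x _ => degree_strong x

/-! ### Swapping the factors -/

omit [Fintype α] [Fintype β] in
theorem mo_swap (p : β × α → Fin 3 → ℝ) :
    mo (strong G₁ G₂) (p ∘ Prod.swap) = mo (strong G₂ G₁) p := by
  have h : (Mot (strong G₂ G₁) p).map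
      (LinearEquiv.funCongrLeft ℝ (Fin 3 → ℝ) (Equiv.prodComm α β) :
        (β × α → Fin 3 → ℝ) →ₗ[ℝ] (α × β → Fin 3 → ℝ)) =
      Mot (strong G₁ G₂) (p ∘ Prod.swap) := by
    ext q
    rw [mem_mot]
    constructor
    · rintro ⟨q', hq', rfl⟩
      have hq2 := (mem_mot _ _ _).1 hq'
      intro u v huv
      exact hq2 u.swap v.swap ⟨fun h => huv.1 (Prod.swap_injective h), huv.2.2, huv.2.1⟩
    · intro hq
      refine ⟨q ∘ Prod.swap, ?_, rfl⟩
      show _ ∈ Mot _ _
      rw [mem_mot]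
      intro u v huv
      exact hq u.swap v.swap ⟨fun h => huv.1 (Prod.swap_injective h), huv.2.2, huv.2.1⟩
  unfold mo
  rw [← h]
  exact LinearEquiv.finrank_map_eq _ _

theorem mo_comm {p : α × β → Fin 3 → ℝ} {q : β × α → Fin 3 → ℝ} (hp : MG p) (hq : MG q) :
    mo (strong G₁ G₂) p = mo (strong G₂ G₁) q := by
  apply le_antisymm
  · exact (hp.min _ (q ∘ Prod.swap)).trans (mo_swap q).le
  · exact (hq.min _ (p ∘ Prod.swap)).trans (mo_swap p).le

theorem edges_comm : (strong G₁ G₂).edgeSet.ncard = (strong G₂ G₁).edgeSet.ncard := by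
  have h1 := edges_strong (G₁ := G₁) (G₂ := G₂)
  have h2 := edges_strong (G₁ := G₂) (G₂ := G₁)
  rw [mul_comm, mul_comm (Fintype.card β), mul_comm (2 * G₂.edgeSet.ncard + _)] at h2
  rw [mul_comm] at h1
  omega

/-! ### A factor with three vertices -/

theorem tree_edges {V : Type} [Fintype V] {G : SimpleGraph V} (hG : G.Connected)
    (ha : G.IsAcyclic) : G.edgeSet.ncard + 1 = Fintype.card V := by
  have h := (SimpleGraph.isTree_iff_connected_and_card (G := G)).1 ⟨hG, ha⟩
  rw [← Nat.card_eq_fintype_card]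
  exact h.2

theorem acyclic_of_edges {V : Type} [Fintype V] {G : SimpleGraph V} (hG : G.Connected)
    (ha : G.edgeSet.ncard + 1 = Fintype.card V) : G.IsAcyclic := by
  rw [← Nat.card_eq_fintype_card] at ha
  exact ((SimpleGraph.isTree_iff_connected_and_card (G := G)).2 ⟨hG, ha⟩).isAcyclic

theorem three_main {p : α × β → Fin 3 → ℝ} (hp : MG p) (h1 : G₁.Connected) (h2 : G₂.Connected)
    (ha : 3 ≤ Fintype.card α) (hb : Fintype.card β = 3) :
    (¬ (G₁.IsAcyclic ∧ G₂.IsAcyclic) ∧ mo (strong G₁ G₂) p ≤ 6) ∨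
    ((G₁.IsAcyclic ∧ G₂.IsAcyclic) ∧ mo (strong G₁ G₂) p ≤ 7 ∧
      (strong G₁ G₂).edgeSet.ncard + 7 = 3 * (Fintype.card α * Fintype.card β)) := by
  classical
  obtain ⟨c, l, r, hlr, hcl, hcr⟩ := exists_cherry h2 hb.ge
  have hU : (univ : Finset β) = {c, l, r} := by
    symm
    apply eq_univ_of_card
    rw [hb, card_eq_three]
    exact ⟨c, l, r, hcl.ne, hcr.ne, hlr, rfl⟩
  have hmem : ∀ x : β, x = c ∨ x = l ∨ x = r := by
    intro x
    have := mem_univ x
    rw [hU] at this
    simpa using this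
  by_cases h : G₁.IsAcyclic
  · by_cases hadj : G₂.Adj l r
    · refine Or.inl ⟨?_, three_tri hp h1 hcl hcr hadj hU⟩
      rintro ⟨-, h'⟩
      have e1 := tree_edges h2 h'
      have e2 : ({s(c, l), s(c, r), s(l, r)} : Finset (Sym2 β)).card = 3 := by
        rw [card_eq_three]
        refine ⟨_, _, _, ?_, ?_, ?_, rfl⟩
        · intro h
          rw [Sym2.eq_iff] at h
          rcases h with ⟨-, h⟩ | ⟨h, -⟩
          · exact hlr h
          · exact hcr.ne h
        · intro h
          rw [Sym2.eq_iff] at h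
          rcases h with ⟨h, -⟩ | ⟨h, -⟩
          · exact hcl.ne h
          · exact hcr.ne h
        · intro h
          rw [Sym2.eq_iff] at h
          rcases h with ⟨h, -⟩ | ⟨h, -⟩
          · exact hcl.ne h
          · exact hcr.ne h
      have e3 : 3 ≤ G₂.edgeSet.ncard := by
        rw [← e2, ← Set.ncard_coe_finset]
        refine Set.ncard_le_ncard ?_ (Set.toFinite _)
        intro e he
        simp only [coe_insert, coe_singleton, Set.mem_insert_iff, Set.mem_singleton_iff] at he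
        rcases he with rfl | rfl | rfl
        · exact hcl
        · exact hcr
        · exact hadj
      omega
    · have e0 : G₂.edgeSet = {s(c, l), s(c, r)} := by
        ext e
        induction e using Sym2.ind with
        | _ x y =>
          rw [SimpleGraph.mem_edgeSet, Set.mem_insert_iff, Set.mem_singleton_iff, Sym2.eq_iff,
            Sym2.eq_iff]
          constructor
          · intro hxy
            rcases hmem x with rfl | rfl | rfl <;> rcases hmem y with rfl | rfl | rfl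
            · exact absurd rfl hxy.ne
            · exact Or.inl (Or.inl ⟨rfl, rfl⟩)
            · exact Or.inr (Or.inl ⟨rfl, rfl⟩)
            · exact Or.inl (Or.inr ⟨rfl, rfl⟩)
            · exact absurd rfl hxy.ne
            · exact absurd hxy hadj
            · exact Or.inr (Or.inr ⟨rfl, rfl⟩)
            · exact absurd hxy.symm hadj
            · exact absurd rfl hxy.ne
          · rintro ((⟨rfl, rfl⟩ | ⟨rfl, rfl⟩) | (⟨rfl, rfl⟩ | ⟨rfl, rfl⟩))
            · exact hcl
            · exact hcl.symm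
            · exact hcr
            · exact hcr.symm
      have e1 : G₂.edgeSet.ncard = 2 := by
        rw [e0, Set.ncard_pair]
        intro h
        rw [Sym2.eq_iff] at h
        rcases h with ⟨-, h⟩ | ⟨h, -⟩
        · exact hlr h
        · exact hcr.ne h
      have e2 : G₂.IsAcyclic := acyclic_of_edges h2 (by rw [e1, hb])
      refine Or.inr ⟨⟨h, e2⟩, three_path hp h1 hlr hcl hcr hU, ?_⟩
      have e3 := edges_strong (G₁ := G₁) (G₂ := G₂)
      have e4 := tree_edges h1 h
      rw [e1, hb] at e3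
      rw [hb]
      omega
  · exact Or.inl ⟨fun h' => h h'.1, three_cycle hp h1 h hlr hcl hcr hU⟩

/-- the main theorem, with the number of motions -/
theorem main_mo {p : α × β → Fin 3 → ℝ} (hp : MG p) (h1 : G₁.Connected) (h2 : G₂.Connected)
    (ha : 3 ≤ Fintype.card α) (hb : 3 ≤ Fintype.card β) :
    (¬ (G₁.IsAcyclic ∧ G₂.IsAcyclic ∧ (Fintype.card α = 3 ∨ Fintype.card β = 3)) ∧
      mo (strong G₁ G₂) p ≤ 6) ∨
    ((G₁.IsAcyclic ∧ G₂.IsAcyclic ∧ (Fintype.card α = 3 ∨ Fintype.card β = 3)) ∧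
      mo (strong G₁ G₂) p ≤ 7 ∧
      (strong G₁ G₂).edgeSet.ncard + 7 = 3 * (Fintype.card α * Fintype.card β)) := by
  by_cases hb3 : Fintype.card β = 3
  · rcases three_main hp h1 h2 ha hb3 with ⟨h, h'⟩ | ⟨h, h'⟩
    · exact Or.inl ⟨fun h'' => h ⟨h''.1, h''.2.1⟩, h'⟩
    · exact Or.inr ⟨⟨h.1, h.2, Or.inr hb3⟩, h'⟩
  · by_cases ha3 : Fintype.card α = 3
    · obtain ⟨q, hq⟩ := exists_mg (β × α) 3
      rw [mo_comm hp hq, edges_comm, mul_comm (Fintype.card α)]
      rcases three_main hq h2 h1 hb ha3 with ⟨h, h'⟩ | ⟨h, h'⟩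
      · exact Or.inl ⟨fun h'' => h ⟨h''.2.1, h''.1⟩, h'⟩
      · exact Or.inr ⟨⟨h.2, h.1, Or.inl ha3⟩, h'⟩
    · refine Or.inl ⟨?_, four_four hp h1 h2 (by omega) (by omega)⟩
      rintro ⟨-, -, h | h⟩
      · exact ha3 h
      · exact hb3 h

theorem main (h1 : G₁.Connected) (h2 : G₂.Connected)
    (ha : 3 ≤ Fintype.card α) (hb : 3 ≤ Fintype.card β) :
    genRank 3 (strong G₁ G₂) =
      min (strong G₁ G₂).edgeSet.ncard (3 * Fintype.card (α × β) - 6) ∧
    (GenRigid 3 (strong G₁ G₂) ↔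
      ¬ (G₁.IsAcyclic ∧ G₂.IsAcyclic ∧ (Fintype.card α = 3 ∨ Fintype.card β = 3))) := by
  obtain ⟨p, hp⟩ := exists_mg (α × β) 3
  have h9 : 3 * 3 ≤ Fintype.card (α × β) := by
    rw [Fintype.card_prod]
    exact Nat.mul_le_mul ha hb
  have e0 := genRank_add hp (strong G₁ G₂)
  have e6 := six_le hp (by omega) (strong G₁ G₂)
  have e1 := rank_le_edges (strong G₁ G₂) p
  rw [genRigid_iff hp (by omega)]
  rcases main_mo hp h1 h2 ha hb with ⟨h, h'⟩ | ⟨h, h', h''⟩
  · constructor
    · omega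
    · exact ⟨fun _ => h, fun _ => h'⟩
  · rw [← Fintype.card_prod] at h''
    constructor
    · omega
    · constructor
      · intro h3
        omega
      · intro h3
        exact absurd h h3

end Pool.Agent.R487.Rig
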