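import Pool.Agent.R487.Rig.Comp

/-!
# A rigid part in which each other vertex has two neighbours: the motions of the bad components
(helper487)
-/

set_option autoImplicit false

namespace Pool.Agent.R487.Rig

open Finset Matrix Pool.Agent.H789R5 Pool.Agent.H283R2.DR Pool.Agent.TH349.Rig

variable {V : Type} [Fintype V]

omit [Fintype V] in
theorem triple_ne {p : V → Fin 3 → ℝ} (hp : MG p) {u w a b : V} (huw : u ≠ w) (hua : u ≠ a)
    (hub : u ≠ b) (hwa : w ≠ a) (hwb : w ≠ b) (hab : a ≠ b) :
    (p u - p w) ⬝ᵥ ((p b - p a) ⨯₃ (p u - p a)) ≠ 0 := by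
  intro h0
  rw [triple_product_eq_det] at h0
  obtain ⟨v, hv, hM⟩ := Matrix.exists_vecMul_eq_zero_iff.2 h0
  have hpos := hp.pos 4 ![u, w, a, b] (by norm_num) (by
    intro i j hij
    fin_cases i <;> fin_cases j <;> simp_all)
  rw [affineIndependent_iff] at hpos
  have hz := hpos univ ![v 0 + v 2, - v 0, - v 1 - v 2, v 1] (by
    rw [Fin.sum_univ_four]
    simp) (by
    rw [Fin.sum_univ_four]
    funext i
    have hi : ∑ j, v j * (![p u - p w, p b - p a, p u - p a] j i) = 0 := congrFun hM i
    rw [Fin.sum_univ_three] at hi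
    simp only [Matrix.cons_val_zero, Matrix.cons_val_one, Matrix.cons_val, Pi.sub_apply,
      Pi.zero_apply] at hi
    simp only [Matrix.cons_val_zero, Matrix.cons_val_one, Matrix.cons_val, Pi.add_apply,
      Pi.smul_apply, smul_eq_mul, Pi.zero_apply]
    linear_combination hi)
  have h1 := hz 1 (mem_univ _)
  have h3 := hz 3 (mem_univ _)
  have h4 := hz 0 (mem_univ _)
  simp only [Matrix.cons_val_zero, Matrix.cons_val_one, Matrix.cons_val] at h1 h3 h4
  apply hv
  funext i
  fin_cases i
  · simpa using h1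
  · simpa using h3
  · have : v 0 = 0 := by simpa using h1
    rw [this, zero_add] at h4
    simpa using h4

/-- the velocity of a rotation around a line is perpendicular to the bars to the line -/
theorem perp_a (a b x : Fin 3 → ℝ) : (a - x) ⬝ᵥ ((b - a) ⨯₃ (x - a)) = 0 := by
  rw [← neg_sub x a, neg_dotProduct, dot_cross_self, neg_zero]

theorem perp_b (a b x : Fin 3 → ℝ) : (b - x) ⬝ᵥ ((b - a) ⨯₃ (x - a)) = 0 := by
  have h : b - x = (b - a) - (x - a) := by abel
  rw [h, sub_dotProduct, dot_self_cross, dot_cross_self, sub_zero]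

theorem rot_perp (a b x y : Fin 3 → ℝ) :
    (x - y) ⬝ᵥ ((b - a) ⨯₃ (x - a) - (b - a) ⨯₃ (y - a)) = 0 := by
  rw [← LinearMap.map_sub]
  have h : x - a - (y - a) = x - y := by abel
  rw [h, dot_cross_self]

open Classical in
theorem mo_lower {p : V → Fin 3 → ℝ} (hp : MG p) {G : SimpleGraph V} {R : Finset V}
    (h3 : 3 ≤ R.card) : 6 + Nat.card {C // IsBad G R C} ≤ mo G p := by
  obtain ⟨r0, hr0⟩ : R.Nonempty := card_pos.1 (by omega)
  -- the pairs
  have hpair : ∀ P : Finset V, ∃ x : V × V, P.card = 2 → P = {x.1, x.2} ∧ x.1 ≠ x.2 := by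
    intro P
    by_cases h : P.card = 2
    · obtain ⟨a, b, hab, hP⟩ := card_eq_two.1 h
      exact ⟨(a, b), fun _ => ⟨hP, hab⟩⟩
    · exact ⟨(r0, r0), fun h' => absurd h' h⟩
  choose f hf using hpair
  set H := outer G R with hH
  let mk : V → H.ConnectedComponent := fun v => H.connectedComponentMk v
  let n : V → Fin 3 → ℝ := fun v =>
    (p (f (nb G R v)).2 - p (f (nb G R v)).1) ⨯₃ (p v - p (f (nb G R v)).1)
  let α : V → V → ℝ := fun u w => (p u - p w) ⬝ᵥ n u
  have hmk : ∀ {u w}, H.Adj u w → mk u = mk w := fun h =>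
    SimpleGraph.ConnectedComponent.eq.2 h.reachable
  -- non-vanishing
  have hα : ∀ u w, u ∉ R → (nb G R u).card = 2 → w ≠ u → w ∉ nb G R u → α u w ≠ 0 := by
    intro u w hu hu2 hwu hw
    obtain ⟨h1, h2⟩ := hf _ hu2
    have hmem : ∀ x, x ∈ nb G R u ↔ x = (f (nb G R u)).1 ∨ x = (f (nb G R u)).2 := by
      intro x
      conv_lhs => rw [h1]
      rw [mem_insert, mem_singleton]
    have ha : (f (nb G R u)).1 ∈ nb G R u := (hmem _).2 (Or.inl rfl)
    have hb : (f (nb G R u)).2 ∈ nb G R u := (hmem _).2 (Or.inr rfl)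
    exact triple_ne hp hwu.symm (fun h => hu (h ▸ (mem_nb.1 ha).1))
      (fun h => hu (h ▸ (mem_nb.1 hb).1)) (fun h => hw (h ▸ ha)) (fun h => hw (h ▸ hb)) h2
  -- the potential
  let HB : SimpleGraph V :=
    { Adj := fun u w => H.Adj u w ∧ IsBad G R (mk u)
      symm := ⟨fun _ _ h => ⟨h.1.symm, hmk h.1 ▸ h.2⟩⟩
      loopless := ⟨fun _ h => h.1.ne rfl⟩ }
  have hHB : HB ≤ H := fun _ _ h => h.1
  obtain ⟨θ, hθ0, hθ⟩ := potential (fun u w => nb G R u ≠ nb G R w) (fun _ _ h => h.symm) α _ HB
    le_rfl (by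
      intro u w huw hne
      obtain ⟨h1, h2, h3'⟩ := huw.2 u rfl
      refine ⟨hα u w h1 h2 huw.1.ne' (fun h => huw.1.2.2 (mem_nb.1 h).1), ?_⟩
      intro hr
      exact h3' w huw.1 hne (hr.mono (SimpleGraph.deleteEdges_mono hHB)))
  -- the motions
  let M2 : ({C // IsBad G R C} → ℝ) →ₗ[ℝ] (V → Fin 3 → ℝ) :=
    { toFun := fun g v => if h : IsBad G R (mk v) then (g ⟨mk v, h⟩ * θ v) • n v else 0
      map_add' := by
        intro g g'
        funext v
        by_cases h : IsBad G R (mk v)
        · simp only [dif_pos h, Pi.add_apply, add_mul, add_smul]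
        · simp only [dif_neg h, Pi.add_apply, add_zero]
      map_smul' := by
        intro c g
        funext v
        by_cases h : IsBad G R (mk v)
        · simp only [dif_pos h, Pi.smul_apply, smul_eq_mul, mul_assoc, mul_smul, RingHom.id_apply]
        · simp only [dif_neg h, Pi.smul_apply, smul_zero] }
  have hM2 : ∀ g v (h : IsBad G R (mk v)), M2 g v = (g ⟨mk v, h⟩ * θ v) • n v :=
    fun g v h => dif_pos h
  have hM2' : ∀ g v, ¬ IsBad G R (mk v) → M2 g v = 0 := fun g v h => dif_neg h
  have hperp : ∀ w, (nb G R w).card = 2 → ∀ z ∈ nb G R w, (p z - p w) ⬝ᵥ n w = 0 := by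
    intro w hw z hz
    obtain ⟨h1, h2⟩ := hf _ hw
    have hz' : z = (f (nb G R w)).1 ∨ z = (f (nb G R w)).2 := by
      have hz2 : z ∈ ({(f (nb G R w)).1, (f (nb G R w)).2} : Finset V) := by
        rw [← h1]
        exact hz
      rwa [mem_insert, mem_singleton] at hz2
    rcases hz' with h | h
    · rw [h]
      exact perp_a _ _ _
    · rw [h]
      exact perp_b _ _ _
  have hmot : ∀ g, IsMotion G p (M2 g) := by
    intro g
    have hone : ∀ u w, G.Adj u w → u ∈ R → (p u - p w) ⬝ᵥ (M2 g u - M2 g w) = 0 := by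
      intro u w huw hu
      rw [hM2' g u (fun h => (h u rfl).1 hu)]
      by_cases hb : IsBad G R (mk w)
      · obtain ⟨h1, h2, -⟩ := hb w rfl
        rw [hM2 g w hb, zero_sub, dotProduct_neg, dotProduct_smul,
          hperp w h2 u (mem_nb.2 ⟨hu, huw.symm⟩), smul_zero, neg_zero]
      · rw [hM2' g w hb, sub_zero, dotProduct_zero]
    intro u w huw
    by_cases hu : u ∈ R
    · exact hone u w huw hu
    · by_cases hw : w ∈ R
      · have := hone w u huw.symm hw
        rw [← neg_sub (p u), ← neg_sub (M2 g u), neg_dotProduct_neg] at this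
        exact this
      · have hadj : H.Adj u w := ⟨huw, hu, hw⟩
        have hc := hmk hadj
        by_cases hb : IsBad G R (mk u)
        · have hb' : IsBad G R (mk w) := hc ▸ hb
          have hg : g ⟨mk w, hb'⟩ = g ⟨mk u, hb⟩ := by
            congr 1
            exact Subtype.ext hc.symm
          rw [hM2 g u hb, hM2 g w hb', hg, mul_smul, mul_smul, ← smul_sub, dotProduct_smul]
          obtain ⟨k1, k2⟩ := hθ u w ⟨hadj, hb⟩
          by_cases hne : nb G R u = nb G R w
          · rw [k2 (fun h => h hne), ← smul_sub, dotProduct_smul]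
            have : (p u - p w) ⬝ᵥ (n u - n w) = 0 := by
              simp only [n, hne]
              exact rot_perp _ _ _ _
            rw [this, smul_zero, smul_zero]
          · have k := k1 hne
            have e1 : (p u - p w) ⬝ᵥ (θ u • n u - θ w • n w) = α u w * θ u + α w u * θ w := by
              simp only [α]
              rw [dotProduct_sub, dotProduct_smul, dotProduct_smul, ← neg_sub (p u) (p w),
                neg_dotProduct, smul_eq_mul, smul_eq_mul]
              ring
            rw [e1, k, smul_zero]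
        · have hb' : ¬ IsBad G R (mk w) := hc ▸ hb
          rw [hM2' g u hb, hM2' g w hb', sub_zero, dotProduct_zero]
  -- the dimension
  let L := (TA.triv p).coprod M2
  have hL : LinearMap.range L ≤ Mot G p := by
    rintro _ ⟨⟨x, g⟩, rfl⟩
    rw [LinearMap.coprod_apply]
    refine Submodule.add_mem _ (TA.range_triv_le G p ⟨x, rfl⟩) ?_
    rw [mem_mot]
    exact hmot g
  have hinj : Function.Injective L := by
    rw [← LinearMap.ker_eq_bot, LinearMap.ker_eq_bot']
    rintro ⟨⟨A, b⟩, g⟩ h
    rw [LinearMap.coprod_apply] at h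
    have hR0 : ∀ v ∈ R, (A : Matrix (Fin 3) (Fin 3) ℝ) *ᵥ p v + b =
        (0 : Matrix (Fin 3) (Fin 3) ℝ) *ᵥ p v + 0 := by
      intro v hv
      have h1 := congrFun h v
      rw [Pi.add_apply, hM2' g v (fun h => (h v rfl).1 hv), add_zero] at h1
      rw [zero_mulVec, add_zero]
      exact h1
    obtain ⟨hA, hb⟩ := triv_unique hp.toGen h3 A.2 (by simp) hR0
    have hA' : A = 0 := Subtype.ext hA
    rw [hA', hb] at h
    have h0 : TA.triv p ((0 : TA.Sk 3), (0 : Fin 3 → ℝ)) = 0 := (TA.triv p).map_zero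
    rw [h0, zero_add] at h
    have hg : g = 0 := by
      funext C
      obtain ⟨C, hC⟩ := C
      obtain ⟨v, hv⟩ : ∃ v, H.connectedComponentMk v = C := C.exists_rep
      subst hv
      have h1 := congrFun h v
      rw [hM2 g v hC, Pi.zero_apply, smul_eq_zero] at h1
      obtain ⟨h4, h5, -⟩ := hC v rfl
      obtain ⟨z, hz⟩ : ∃ z, z ∈ R ∧ z ∉ nb G R v := by
        by_contra hcon
        push Not at hcon
        have := card_le_card (s := R) (t := nb G R v) hcon
        omega
      rcases h1 with h1 | h1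
      · exact (mul_eq_zero.1 h1).resolve_right (hθ0 v)
      · exfalso
        refine hα v z h4 h5 (fun h => h4 (h ▸ hz.1)) hz.2 ?_
        change (p v - p z) ⬝ᵥ n v = 0
        rw [h1, dotProduct_zero]
    rw [hA', hb, hg]
    rfl
  have h5 := LinearMap.finrank_range_of_inj hinj
  have h6 := Submodule.finrank_mono hL
  rw [h5, Module.finrank_prod, finrank_triv, Module.finrank_fintype_fun_eq_card] at h6
  rw [Nat.card_eq_fintype_card]
  exact h6

end Pool.Agent.R487.Rig
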