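import Pool.Agent.R487.Rig.Core

/-!
# The generic rank in `ℝ³` of strong products (helper487)
-/

set_option autoImplicit false

namespace Pool.Agent.R487.Rig

open Finset Pool.Agent.H789R5 Pool.Agent.H283R2.DR Pool.Agent.TH349.Rig Pool.Agent.TH409.RG

/-! ### Small subgraphs of connected graphs -/

theorem exists_cherry {ι : Type} [Fintype ι] {H : SimpleGraph ι} (hH : H.Connected)
    (h3 : 3 ≤ Fintype.card ι) : ∃ c l r, l ≠ r ∧ H.Adj c l ∧ H.Adj c r := by
  classical
  obtain ⟨v0⟩ := hH.nonempty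
  have hout : ∀ A : Finset ι, A.card < 3 → ∃ z, z ∉ A := by
    intro A hA
    by_contra hcon
    push Not at hcon
    have : A = univ := eq_univ_iff_forall.2 hcon
    rw [this, card_univ] at hA
    omega
  obtain ⟨z, hz⟩ := hout {v0} (by simp)
  obtain ⟨x, v1, hx, hv1, h01⟩ := exists_leave hH (mem_singleton_self v0) hz
  rw [mem_singleton] at hx hv1
  subst hx
  obtain ⟨z, hz⟩ := hout {x, v1} (by rw [card_pair h01.ne]; norm_num)
  obtain ⟨w, y, hw, hy, hwy⟩ := exists_leave hH (mem_insert_self x {v1}) hz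
  rw [mem_insert, mem_singleton] at hw
  have hy' : y ≠ x ∧ y ≠ v1 := by
    simpa [not_or] using hy
  rcases hw with rfl | rfl
  · exact ⟨w, v1, y, hy'.2.symm, h01, hwy⟩
  · exact ⟨w, x, y, hy'.1.symm, h01.symm, hwy⟩

def path4 : List (Fin 4 × Fin 4) := [(0, 1), (1, 2), (2, 3)]
def star4 : List (Fin 4 × Fin 4) := [(0, 1), (0, 2), (0, 3)]

theorem inj4 {ι : Type} {w x y z : ι} (h1 : w ≠ x) (h2 : w ≠ y) (h3 : w ≠ z) (h4 : x ≠ y)
    (h5 : x ≠ z) (h6 : y ≠ z) : Function.Injective ![w, x, y, z] := by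
  intro i j hij
  fin_cases i <;> fin_cases j <;> simp_all

theorem exists_tree4 {ι : Type} [Fintype ι] {H : SimpleGraph ι} (hH : H.Connected)
    (h4 : 4 ≤ Fintype.card ι) : ∃ a : Fin 4 ↪ ι,
      (∀ i j, (gr path4).Adj i j → H.Adj (a i) (a j)) ∨
      (∀ i j, (gr star4).Adj i j → H.Adj (a i) (a j)) := by
  classical
  obtain ⟨c, l, r, hlr, hcl, hcr⟩ := exists_cherry hH (by omega)
  have hne : ∃ z, z ∉ ({c, l, r} : Finset ι) := by
    by_contra hcon
    push Not at hcon
    have : ({c, l, r} : Finset ι) = univ := eq_univ_iff_forall.2 hcon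
    have h : ({c, l, r} : Finset ι).card ≤ 3 := card_le_three
    rw [this, card_univ] at h
    omega
  obtain ⟨z, hz⟩ := hne
  obtain ⟨x, y, hx, hy, hxy⟩ := exists_leave hH (mem_insert_self c {l, r}) hz
  simp only [mem_insert, mem_singleton, not_or] at hx hy
  obtain ⟨hyc, hyl, hyr⟩ := hy
  rcases hx with rfl | rfl | rfl
  · refine ⟨⟨![x, l, r, y], inj4 hcl.ne hcr.ne (Ne.symm hyc) hlr (Ne.symm hyl) (Ne.symm hyr)⟩,
      Or.inr ?_⟩
    intro i j h
    fin_cases i <;> fin_cases j <;> first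
      | exact absurd h (by decide)
      | exact hcl
      | exact hcl.symm
      | exact hcr
      | exact hcr.symm
      | exact hxy
      | exact hxy.symm
  · refine ⟨⟨![y, x, c, r], inj4 hyl hyc hyr hcl.ne.symm hlr hcr.ne⟩, Or.inl ?_⟩
    intro i j h
    fin_cases i <;> fin_cases j <;> first
      | exact absurd h (by decide)
      | exact hxy
      | exact hxy.symm
      | exact hcl
      | exact hcl.symm
      | exact hcr
      | exact hcr.symm
  · refine ⟨⟨![y, x, c, l], inj4 hyr hyc hyl hcr.ne.symm hlr.symm hcl.ne⟩, Or.inl ?_⟩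
    intro i j h
    fin_cases i <;> fin_cases j <;> first
      | exact absurd h (by decide)
      | exact hxy
      | exact hxy.symm
      | exact hcr
      | exact hcr.symm
      | exact hcl
      | exact hcl.symm

theorem fat_map {ι : Type} {H : SimpleGraph ι} {n : ℕ} {L : List (Fin n × Fin n)}
    (a : Fin n ↪ ι) (ha : ∀ i j, (gr L).Adj i j → H.Adj (a i) (a j)) (hL : Fat (gr L) univ) :
    Fat H (univ.map a) := by
  have key : ∀ i, N2 (gr L) univ i → N2 H (univ.map a) (a i) := by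
    rintro i ⟨b, -, c, -, hbc, h1, h2⟩
    exact ⟨a b, mem_map_of_mem a (mem_univ _), a c, mem_map_of_mem a (mem_univ _),
      fun h => hbc (a.injective h), ha _ _ h1, ha _ _ h2⟩
  intro x hx
  rw [mem_map] at hx
  obtain ⟨i, -, rfl⟩ := hx
  rcases hL i (mem_univ _) with h | ⟨b, -, hab, h⟩
  · exact Or.inl (key i h)
  · exact Or.inr ⟨a b, mem_map_of_mem a (mem_univ _), ha _ _ hab, key b h⟩

theorem fat_path : Fat (gr path4) univ := by
  unfold Fat N2
  decide

theorem fat_star : Fat (gr star4) univ := by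
  unfold Fat N2
  decide

/-! ### Cores -/

section product

variable {α β : Type} [Fintype α] [Fintype β] {G₁ : SimpleGraph α} {G₂ : SimpleGraph β}

/-- the embedding of a product of intervals -/
def pe (n m : ℕ) (a : Fin n ↪ α) (b : Fin m ↪ β) : Fin (n * m) ↪ α × β :=
  finProdFinEquiv.symm.toEmbedding.trans (a.prodMap b)

omit [Fintype α] [Fintype β] in
theorem map_pe (n m : ℕ) (a : Fin n ↪ α) (b : Fin m ↪ β) :
    (univ : Finset (Fin (n * m))).map (pe n m a b) = univ.map a ×ˢ univ.map b := by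
  unfold pe
  rw [← map_map]
  have h1 : (univ : Finset (Fin (n * m))).map finProdFinEquiv.symm.toEmbedding = univ := by
    simp
  rw [h1]
  ext ⟨x, y⟩
  simp only [mem_map, mem_univ, true_and, mem_product]
  constructor
  · rintro ⟨⟨i, j⟩, h⟩
    have := Prod.ext_iff.1 h
    exact ⟨⟨i, this.1⟩, ⟨j, this.2⟩⟩
  · rintro ⟨⟨i, rfl⟩, ⟨j, rfl⟩⟩
    exact ⟨(i, j), rfl⟩

theorem core {p : α × β → Fin 3 → ℝ} (n m : ℕ) (a : Fin n ↪ α) (b : Fin m ↪ β)
    {L1 : List (Fin n × Fin n)} {L2 : List (Fin m × Fin m)}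
    (ha : ∀ i j, (gr L1).Adj i j → G₁.Adj (a i) (a j))
    (hb : ∀ i j, (gr L2).Adj i j → G₂.Adj (b i) (b j)) (L : List (Fin (n * m) × Fin (n * m)))
    (hL : ∀ k l : Fin (n * m), (gr L).Adj k l →
      (k.divNat = l.divNat ∨ (gr L1).Adj k.divNat l.divNat) ∧
      (k.modNat = l.modNat ∨ (gr L2).Adj k.modNat l.modNat))
    (hc : Cert p (pe n m a b) L univ) : ri p (strong G₁ G₂) (univ.map a ×ˢ univ.map b) := by
  rw [← map_pe]
  refine hc _ ?_
  intro k l hkl
  refine ⟨fun h => hkl.ne ((pe n m a b).injective h), ?_, ?_⟩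
  · rcases (hL k l hkl).1 with h | h
    · exact Or.inl (congrArg a h)
    · exact Or.inr (ha _ _ h)
  · rcases (hL k l hkl).2 with h | h
    · exact Or.inl (congrArg b h)
    · exact Or.inr (hb _ _ h)

theorem four_four {p : α × β → Fin 3 → ℝ} (hp : MG p) (h1 : G₁.Connected) (h2 : G₂.Connected)
    (ha : 4 ≤ Fintype.card α) (hb : 4 ≤ Fintype.card β) : mo (strong G₁ G₂) p ≤ 6 := by
  obtain ⟨a, ha | ha⟩ := exists_tree4 h1 ha <;> obtain ⟨b, hb | hb⟩ := exists_tree4 h2 hb
  · exact grow hp h1 h2 (fat_map a ha fat_path) (fat_map b hb fat_path) (by simp) (by simp)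
      (core 4 4 a b ha hb LPP (by decide) (certPP hp _))
  · exact grow hp h1 h2 (fat_map a ha fat_path) (fat_map b hb fat_star) (by simp) (by simp)
      (core 4 4 a b ha hb LPS (by decide) (certPS hp _))
  · exact grow hp h1 h2 (fat_map a ha fat_star) (fat_map b hb fat_path) (by simp) (by simp)
      (core 4 4 a b ha hb LSP (by decide) (certSP hp _))
  · exact grow hp h1 h2 (fat_map a ha fat_star) (fat_map b hb fat_star) (by simp) (by simp)
      (core 4 4 a b ha hb LSS (by decide) (certSS hp _))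

end product

end Pool.Agent.R487.Rig
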