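import Pool.Agent.R487.Rig.Step

/-!
# A rigid part in which each other vertex has two neighbours: potentials and growth (helper487)
-/

set_option autoImplicit false

namespace Pool.Agent.R487.Rig

open Finset Pool.Agent.H789R5 Pool.Agent.H283R2.DR Pool.Agent.TH349.Rig

/-! ### Potentials -/

theorem potential {V : Type} [Fintype V] (S : V → V → Prop) (hS : ∀ u w, S u w → S w u)
    (α : V → V → ℝ) : ∀ (n : ℕ) (H : SimpleGraph V), H.edgeSet.ncard ≤ n →
    (∀ u w, H.Adj u w → S u w → α u w ≠ 0 ∧ H.IsBridge s(u, w)) →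
    ∃ θ : V → ℝ, (∀ v, θ v ≠ 0) ∧ ∀ u w, H.Adj u w →
      (S u w → α u w * θ u + α w u * θ w = 0) ∧ (¬ S u w → θ u = θ w) := by
  classical
  intro n
  induction n with
  | zero =>
    intro H hn hH
    refine ⟨fun _ => 1, fun _ => one_ne_zero, fun u w huw => ?_⟩
    exfalso
    have h1 : s(u, w) ∈ H.edgeSet := huw
    have h2 := (Set.ncard_pos (Set.toFinite H.edgeSet)).2 ⟨_, h1⟩
    omega
  | succ n ih =>
    intro H hn hH
    by_cases h : ∃ u w, H.Adj u w ∧ S u w
    · obtain ⟨u, w, huw, hs⟩ := h
      set H' := H.deleteEdges {s(u, w)} with hH'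
      have hcard : H'.edgeSet.ncard ≤ n := by
        rw [hH', SimpleGraph.edgeSet_deleteEdges]
        have h1 : s(u, w) ∈ H.edgeSet := huw
        have h2 := Set.ncard_sdiff_singleton_of_mem h1
        have h3 := (Set.ncard_pos (Set.toFinite H.edgeSet)).2 ⟨_, h1⟩
        omega
      have hle : H' ≤ H := SimpleGraph.deleteEdges_le _
      obtain ⟨θ, h0, hθ⟩ := ih H' hcard (fun a b hab hs' =>
        ⟨(hH a b (hle hab) hs').1, fun hr => (hH a b (hle hab) hs').2
          (hr.mono (SimpleGraph.deleteEdges_mono hle))⟩)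
      have hur : ¬ H'.Reachable u w := (hH u w huw hs).2
      have hwu : ¬ H'.Reachable w u := fun h => hur h.symm
      have hα := (hH w u huw.symm (hS _ _ hs)).1
      set l : ℝ := - (α u w * θ u) / (α w u * θ w) with hl
      have hl0 : l ≠ 0 := by
        rw [hl]
        exact div_ne_zero (neg_ne_zero.2 (mul_ne_zero (hH u w huw hs).1 (h0 u)))
          (mul_ne_zero hα (h0 w))
      have hl1 : α u w * θ u + α w u * (l * θ w) = 0 := by
        rw [hl]
        have := h0 w
        field_simp
        ring
      refine ⟨fun v => if H'.Reachable w v then l * θ v else θ v, ?_, ?_⟩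
      · intro v
        by_cases hv : H'.Reachable w v
        · simp only [if_pos hv]
          exact mul_ne_zero hl0 (h0 v)
        · simp only [if_neg hv]
          exact h0 v
      · intro a b hab
        by_cases he : s(a, b) = s(u, w)
        · rw [Sym2.eq_iff] at he
          rcases he with ⟨rfl, rfl⟩ | ⟨rfl, rfl⟩
          · refine ⟨fun _ => ?_, fun h' => absurd hs h'⟩
            simp only [if_neg hwu, if_pos (SimpleGraph.Reachable.refl (G := H') b)]
            exact hl1
          · refine ⟨fun _ => ?_, fun h' => absurd (hS _ _ hs) h'⟩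
            simp only [if_neg hwu, if_pos (SimpleGraph.Reachable.refl (G := H') a)]
            rw [add_comm]
            exact hl1
        · have hab' : H'.Adj a b := by
            rw [hH', SimpleGraph.deleteEdges_adj]
            exact ⟨hab, he⟩
          have hiff : H'.Reachable w a ↔ H'.Reachable w b :=
            ⟨fun h => h.trans hab'.reachable, fun h => h.trans hab'.symm.reachable⟩
          obtain ⟨h1, h2⟩ := hθ a b hab'
          by_cases ha : H'.Reachable w a
          · simp only [if_pos ha, if_pos (hiff.1 ha)]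
            refine ⟨fun h => ?_, fun h => by rw [h2 h]⟩
            have := h1 h
            linear_combination l * this
          · simp only [if_neg ha, if_neg (fun h => ha (hiff.2 h))]
            exact ⟨h1, h2⟩
    · refine ⟨fun _ => 1, fun _ => one_ne_zero, fun u w huw => ⟨fun hs => ?_, fun _ => rfl⟩⟩
      exact absurd ⟨u, w, huw, hs⟩ h

/-! ### Growth -/

variable {V : Type} [Fintype V]

open Classical in
theorem rc_ext1 {c : ℕ} {p : V → Fin 3 → ℝ} (hp : MG p) {G : SimpleGraph V} {U N : Finset V}
    {v x y : V} (hv : v ∉ U) (hNU : N ⊆ U) (hN : N.card = 4) (hadj : ∀ z ∈ N, G.Adj v z)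
    (hx : x ∈ N) (hy : y ∈ N) (hxy : x ≠ y)
    (hr : rc c p (G ⊔ SimpleGraph.edge x y) U) : rc c p G (insert v U) := by
  have h1 := ext1 hp (ins G (insert v U)) v N hN (fun z hz =>
    ⟨hadj z hz, mem_insert_self _ _, mem_insert_of_mem (hNU hz)⟩) hx hy hxy
  have h2 : mo ((ins G (insert v U)).deleteIncidenceSet v ⊔ SimpleGraph.edge x y) p ≤
      mo (ins (G ⊔ SimpleGraph.edge x y) U) p := by
    apply mo_anti
    intro a b hab
    obtain ⟨h, ha', hb'⟩ := hab
    have ha : a ≠ v := fun h => hv (h ▸ ha')
    have hb : b ≠ v := fun h => hv (h ▸ hb')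
    rw [SimpleGraph.sup_adj] at h ⊢
    rcases h with h | h
    · left
      rw [SimpleGraph.deleteIncidenceSet_adj]
      exact ⟨⟨h, mem_insert_of_mem ha', mem_insert_of_mem hb'⟩, ha, hb⟩
    · exact Or.inr h
  unfold rc at *
  rw [card_insert_of_notMem hv]
  omega

open Classical in
/-- growth inside a component -/
theorem grow_comp {c : ℕ} {p : V → Fin 3 → ℝ} (hp : MG p) {G H : SimpleGraph V} {R : Finset V}
    (hHG : H ≤ G)
    (hR : ∀ v w, H.Adj v w → v ∉ R ∧ ∃ a ∈ R, ∃ b ∈ R, a ≠ b ∧ G.Adj v a ∧ G.Adj v b) (s : V) :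
    ∀ (n : ℕ) (U : Finset V), Uᶜ.card = n → R ⊆ U → s ∈ U → rc c p G U →
    rc c p G (univ.filter (fun v => v ∈ U ∨ H.Reachable s v)) := by
  intro n
  induction n with
  | zero =>
    intro U hU _ _ hr
    rw [card_eq_zero, compl_eq_empty_iff] at hU
    convert hr using 1
    rw [hU]
    ext v
    simp
  | succ n ih =>
    intro U hU hRU hs hr
    by_cases hall : ∀ v, H.Reachable s v → v ∈ U
    · convert hr using 1
      ext v
      simp only [mem_filter, mem_univ, true_and]
      exact ⟨fun h => h.elim id (hall v), Or.inl⟩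
    · push Not at hall
      obtain ⟨v, hsv, hvU⟩ := hall
      obtain ⟨w⟩ := hsv
      obtain ⟨d, -, hd1, hd2⟩ := w.exists_boundary_dart {x | x ∈ U ∧ H.Reachable s x}
        ⟨hs, SimpleGraph.Reachable.refl _⟩ (fun h => hvU h.1)
      obtain ⟨hx, hsx⟩ := hd1
      have hxy := d.adj
      have hsy : H.Reachable s d.snd := hsx.trans hxy.reachable
      have hy : d.snd ∉ U := fun h => hd2 ⟨h, hsy⟩
      obtain ⟨hyR, a, ha, b, hb, hab, hya, hyb⟩ := hR _ _ hxy.symm
      have hxR := (hR _ _ hxy).1
      have e := rc_ext0 hp (T := {a, b, d.fst}) hy ?_ ?_ ?_ hr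
      · have e' := ih (insert d.snd U) (by
          rw [compl_insert, card_erase_of_mem (mem_compl.2 hy), hU]
          rfl) (hRU.trans (subset_insert _ _)) (mem_insert_of_mem hs) e
        convert e' using 1
        ext z
        simp only [mem_filter, mem_univ, true_and, mem_insert]
        constructor
        · rintro (h | h)
          · exact Or.inl (Or.inr h)
          · exact Or.inr h
        · rintro ((rfl | h) | h)
          · exact Or.inr hsy
          · exact Or.inl h
          · exact Or.inr h
      · intro z hz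
        simp only [mem_insert, mem_singleton] at hz
        rcases hz with rfl | rfl | rfl
        · exact hRU ha
        · exact hRU hb
        · exact hx
      · rw [card_eq_three]
        exact ⟨a, b, d.fst, hab, fun h => hxR (h ▸ ha), fun h => hxR (h ▸ hb), rfl⟩
      · intro z hz
        simp only [mem_insert, mem_singleton] at hz
        rcases hz with rfl | rfl | rfl
        · exact hya
        · exact hyb
        · exact (hHG hxy).symm

open Classical in
/-- growth inside a component -/
theorem grow_to {c : ℕ} {p : V → Fin 3 → ℝ} (hp : MG p) {G H : SimpleGraph V} {R : Finset V}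
    (hHG : H ≤ G)
    (hR : ∀ v w, H.Adj v w → v ∉ R ∧ ∃ a ∈ R, ∃ b ∈ R, a ≠ b ∧ G.Adj v a ∧ G.Adj v b) (s : V)
    {U W : Finset V} (hRU : R ⊆ U) (hs : s ∈ U) (hr : rc c p G U)
    (hW : ∀ v, v ∈ W ↔ v ∈ U ∨ H.Reachable s v) : rc c p G W := by
  have h := grow_comp hp hHG hR s _ U rfl hRU hs hr
  have h1 : univ.filter (fun v => v ∈ U ∨ H.Reachable s v) = W := by
    ext v
    rw [mem_filter, hW]
    exact ⟨fun h => h.2, fun h => ⟨mem_univ _, h⟩⟩
  rwa [h1] at h

end Pool.Agent.R487.Rig
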