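import Pool.Agent.TH409.RG.Family

/-!
# Layers of strong products: the steps (helper487)
-/

set_option autoImplicit false

namespace Pool.Agent.R487.Rig

open Finset Pool.Agent.H789R5 Pool.Agent.H283R2.DR Pool.Agent.TH349.Rig Pool.Agent.TH409.RG

variable {V : Type} [Fintype V]

/-- the graph `G` has a space of motions of dimension at most `c` on the set `U` -/
def rc (c : ℕ) (p : V → Fin 3 → ℝ) (G : SimpleGraph V) (U : Finset V) : Prop :=
  mo (ins G U) p + 3 * U.card ≤ c + 3 * Fintype.card V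

theorem rc_mono {c : ℕ} {p : V → Fin 3 → ℝ} {G H : SimpleGraph V} {U : Finset V}
    (h : ∀ a ∈ U, ∀ b ∈ U, H.Adj a b → G.Adj a b) (hr : rc c p H U) : rc c p G U := by
  unfold rc at *
  have h1 : mo (ins G U) p ≤ mo (ins H U) p := by
    apply mo_anti
    intro a b hab
    exact ⟨h a hab.2.1 b hab.2.2 hab.1, hab.2.1, hab.2.2⟩
  omega

theorem rc_univ {c : ℕ} {p : V → Fin 3 → ℝ} {G : SimpleGraph V} :
    rc c p G univ ↔ mo G p ≤ c := by
  have h : ins G univ = G := by
    ext a b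
    exact ⟨fun h => h.1, fun h => ⟨h, mem_univ _, mem_univ _⟩⟩
  unfold rc
  rw [h, card_univ]
  omega

open Classical in
theorem rc_ext0 {c : ℕ} {p : V → Fin 3 → ℝ} (hp : MG p) {G : SimpleGraph V} {U T : Finset V}
    {v : V} (hv : v ∉ U) (hTU : T ⊆ U) (hT : T.card = 3) (hadj : ∀ z ∈ T, G.Adj v z)
    (hr : rc c p G U) : rc c p G (insert v U) := by
  have h1 := mo_step hp hv hTU hT.le hadj
  unfold rc at *
  rw [card_insert_of_notMem hv]
  omega

open Classical in
theorem rc_ext0' {c : ℕ} {p : V → Fin 3 → ℝ} (hp : MG p) {G : SimpleGraph V} {U T : Finset V}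
    {v : V} (hv : v ∉ U) (hTU : T ⊆ U) (hT : T.card = 2) (hadj : ∀ z ∈ T, G.Adj v z)
    (hr : rc c p G U) : rc (c + 1) p G (insert v U) := by
  have h1 := mo_step hp hv hTU (by omega) hadj
  unfold rc at *
  rw [card_insert_of_notMem hv]
  omega

open Classical in
theorem rc_many {c : ℕ} {p : V → Fin 3 → ℝ} (hp : MG p) {G : SimpleGraph V} {U : Finset V}
    (B : Finset V)
    (h : ∀ b ∈ B, b ∉ U → ∃ T : Finset V, T ⊆ U ∧ T.card = 3 ∧ ∀ z ∈ T, G.Adj b z)
    (hr : rc c p G U) : rc c p G (B ∪ U) := by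
  induction B using Finset.induction_on with
  | empty => simpa using hr
  | insert b B hb ih =>
    have ih' := ih (fun b' hb' => h b' (mem_insert_of_mem hb'))
    rw [insert_union]
    by_cases hbU : b ∈ B ∪ U
    · rw [insert_eq_of_mem hbU]
      exact ih'
    · obtain ⟨T, hTU, hT, hadj⟩ := h b (mem_insert_self _ _) (fun h => hbU (mem_union_right _ h))
      exact rc_ext0 hp hbU (hTU.trans subset_union_right) hT hadj ih'

/-! ### Fat sets -/

/-- `a` has two neighbours in `A` -/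
def N2 {ι : Type} (H : SimpleGraph ι) (A : Finset ι) (a : ι) : Prop :=
  ∃ b ∈ A, ∃ c ∈ A, b ≠ c ∧ H.Adj a b ∧ H.Adj a c

/-- each vertex of `A` has two neighbours in `A` or one which has two -/
def Fat {ι : Type} (H : SimpleGraph ι) (A : Finset ι) : Prop :=
  ∀ a ∈ A, N2 H A a ∨ ∃ b ∈ A, H.Adj a b ∧ N2 H A b

theorem N2.mono {ι : Type} {H : SimpleGraph ι} {A B : Finset ι} {a : ι} (h : N2 H A a)
    (hAB : A ⊆ B) : N2 H B a := by
  obtain ⟨b, hb, c, hc, h⟩ := h
  exact ⟨b, hAB hb, c, hAB hc, h⟩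

theorem Fat.insert {ι : Type} [DecidableEq ι] {H : SimpleGraph ι} {A : Finset ι} (h : Fat H A)
    {x y : ι} (hx : x ∉ A) (hy : y ∈ A) (hxy : H.Adj y x) : Fat H (Insert.insert x A) := by
  have hsub : A ⊆ Insert.insert x A := subset_insert _ _
  intro a ha
  rw [mem_insert] at ha
  rcases ha with rfl | ha
  · right
    refine ⟨y, hsub hy, hxy.symm, ?_⟩
    rcases h y hy with ⟨b, hb, -, -, -, hyb, -⟩ | ⟨b, hb, hyb, -⟩
    · exact ⟨b, hsub hb, a, mem_insert_self _ _, fun h => hx (h ▸ hb), hyb, hxy⟩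
    · exact ⟨b, hsub hb, a, mem_insert_self _ _, fun h => hx (h ▸ hb), hyb, hxy⟩
  · rcases h a ha with h1 | ⟨b, hb, hab, h1⟩
    · exact Or.inl (h1.mono hsub)
    · exact Or.inr ⟨b, hsub hb, hab, h1.mono hsub⟩

open Classical in
/-- a new layer over a fat set -/
theorem layer {ι : Type} {c : ℕ} {p : V → Fin 3 → ℝ} (hp : MG p) {G : SimpleGraph V}
    {U : Finset V} (H : SimpleGraph ι) (A : Finset ι) (f g : ι → V)
    (hf : ∀ a ∈ A, ∀ b ∈ A, f a = f b → a = b)
    (hfU : ∀ a ∈ A, f a ∈ U) (hgU : ∀ a ∈ A, g a ∉ U)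
    (h1 : ∀ a ∈ A, G.Adj (g a) (f a))
    (h2 : ∀ a ∈ A, ∀ b ∈ A, H.Adj a b → G.Adj (g a) (f b))
    (h3 : ∀ a ∈ A, ∀ b ∈ A, H.Adj a b → G.Adj (g a) (g b))
    (hA : Fat H A) (hr : rc c p G U) : rc c p G (A.image g ∪ U) := by
  have e1 : rc c p G ((A.filter (N2 H A)).image g ∪ U) := by
    refine rc_many hp _ ?_ hr
    intro b hb _
    rw [mem_image] at hb
    obtain ⟨a, ha, rfl⟩ := hb
    rw [mem_filter] at ha
    obtain ⟨ha, b, hb, d, hd, hbd, hab, had⟩ := ha
    refine ⟨{f a, f b, f d}, ?_, ?_, ?_⟩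
    · intro z hz
      simp only [mem_insert, mem_singleton] at hz
      rcases hz with rfl | rfl | rfl
      · exact hfU a ha
      · exact hfU b hb
      · exact hfU d hd
    · rw [card_eq_three]
      exact ⟨f a, f b, f d, fun h => hab.ne (hf a ha b hb h), fun h => had.ne (hf a ha d hd h),
        fun h => hbd (hf b hb d hd h), rfl⟩
    · intro z hz
      simp only [mem_insert, mem_singleton] at hz
      rcases hz with rfl | rfl | rfl
      · exact h1 a ha
      · exact h2 a ha b hb hab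
      · exact h2 a ha d hd had
  have e2 : rc c p G (A.image g ∪ ((A.filter (N2 H A)).image g ∪ U)) := by
    refine rc_many hp _ ?_ e1
    intro b hb hbU
    rw [mem_image] at hb
    obtain ⟨a, ha, rfl⟩ := hb
    rcases hA a ha with h | ⟨b, hb, hab, h⟩
    · exact absurd (mem_union_left _ (mem_image_of_mem g (mem_filter.2 ⟨ha, h⟩))) hbU
    · have hgb : g b ∈ (A.filter (N2 H A)).image g :=
        mem_image_of_mem g (mem_filter.2 ⟨hb, h⟩)
      refine ⟨{f a, f b, g b}, ?_, ?_, ?_⟩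
      · intro z hz
        simp only [mem_insert, mem_singleton] at hz
        rcases hz with rfl | rfl | rfl
        · exact mem_union_right _ (hfU a ha)
        · exact mem_union_right _ (hfU b hb)
        · exact mem_union_left _ hgb
      · rw [card_eq_three]
        exact ⟨f a, f b, g b, fun h => hab.ne (hf a ha b hb h), fun h => hgU b hb (h ▸ hfU a ha),
          fun h => hgU b hb (h ▸ hfU b hb), rfl⟩
      · intro z hz
        simp only [mem_insert, mem_singleton] at hz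
        rcases hz with rfl | rfl | rfl
        · exact h1 a ha
        · exact h2 a ha b hb hab
        · exact h3 a ha b hb hab
  have e3 : A.image g ∪ ((A.filter (N2 H A)).image g ∪ U) = A.image g ∪ U := by
    ext z
    simp only [mem_union, mem_image, mem_filter]
    constructor
    · rintro (h | ⟨a, ⟨ha, -⟩, rfl⟩ | h)
      · exact Or.inl h
      · exact Or.inl ⟨a, ha, rfl⟩
      · exact Or.inr h
    · rintro (h | h)
      · exact Or.inl h
      · exact Or.inr (Or.inr h)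
  rwa [e3] at e2

/-! ### Leaving a set -/

theorem exists_leave {ι : Type} {H : SimpleGraph ι} (hH : H.Connected) {A : Finset ι} {a z : ι}
    (ha : a ∈ A) (hz : z ∉ A) : ∃ x y, x ∈ A ∧ y ∉ A ∧ H.Adj x y := by
  by_contra hcon
  push Not at hcon
  have h1 : ∀ x y, H.Reachable x y → x ∈ A → y ∈ A := by
    rintro x y ⟨w⟩
    induction w with
    | nil => exact id
    | @cons x y z hxy _ ih =>
      intro hx
      refine ih ?_
      by_contra hy
      exact hcon x y hx hy hxy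
  exact hz (h1 a z (hH.preconnected a z) ha)

/-! ### The strong product -/

/-- The strong product: two different pairs are adjacent if each component of the first is equal or
adjacent to the component of the second. -/
def strong {α β : Type} (G₁ : SimpleGraph α) (G₂ : SimpleGraph β) : SimpleGraph (α × β) where
  Adj x y := x ≠ y ∧ (x.1 = y.1 ∨ G₁.Adj x.1 y.1) ∧ (x.2 = y.2 ∨ G₂.Adj x.2 y.2)
  symm := ⟨fun _ _ h => ⟨h.1.symm, h.2.1.imp Eq.symm SimpleGraph.Adj.symm,
    h.2.2.imp Eq.symm SimpleGraph.Adj.symm⟩⟩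
  loopless := ⟨fun _ h => h.1 rfl⟩

section product

variable {α β : Type} [Fintype α] [Fintype β] {G₁ : SimpleGraph α} {G₂ : SimpleGraph β}

open Classical in
theorem growR {c : ℕ} {p : α × β → Fin 3 → ℝ} (hp : MG p) {A : Finset α} {B : Finset β}
    (hA : Fat G₁ A) {s t : β} (hs : s ∈ B) (ht : t ∉ B) (hst : G₂.Adj s t)
    (hr : rc c p (strong G₁ G₂) (A ×ˢ B)) : rc c p (strong G₁ G₂) (A ×ˢ insert t B) := by
  have h := layer (G := strong G₁ G₂) hp G₁ A (fun a => ((a, s) : α × β)) (fun a => ((a, t) : α × β))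
    (fun a _ b _ h => (Prod.ext_iff.1 h).1) (fun a ha => mem_product.2 ⟨ha, hs⟩)
    (fun a _ h => ht (mem_product.1 h).2)
    (fun a _ => ⟨fun h => hst.ne (Prod.ext_iff.1 h).2.symm, Or.inl rfl, Or.inr hst.symm⟩)
    (fun a _ b _ hab => ⟨fun h => hab.ne (Prod.ext_iff.1 h).1, Or.inr hab, Or.inr hst.symm⟩)
    (fun a _ b _ hab => ⟨fun h => hab.ne (Prod.ext_iff.1 h).1, Or.inr hab, Or.inl rfl⟩) hA hr
  convert h using 1
  ext ⟨x, y⟩
  simp only [mem_union, mem_image, Prod.mk.injEq, mem_product, mem_insert]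
  constructor
  · rintro ⟨h1, rfl | h2⟩
    · exact Or.inl ⟨x, h1, rfl, rfl⟩
    · exact Or.inr ⟨h1, h2⟩
  · rintro (⟨a, ha, rfl, rfl⟩ | ⟨h1, h2⟩)
    · exact ⟨ha, Or.inl rfl⟩
    · exact ⟨h1, Or.inr h2⟩

open Classical in
theorem growL {c : ℕ} {p : α × β → Fin 3 → ℝ} (hp : MG p) {A : Finset α} {B : Finset β}
    (hB : Fat G₂ B) {s t : α} (hs : s ∈ A) (ht : t ∉ A) (hst : G₁.Adj s t)
    (hr : rc c p (strong G₁ G₂) (A ×ˢ B)) : rc c p (strong G₁ G₂) (insert t A ×ˢ B) := by
  have h := layer (G := strong G₁ G₂) hp G₂ B (fun b => ((s, b) : α × β)) (fun b => ((t, b) : α × β))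
    (fun a _ b _ h => (Prod.ext_iff.1 h).2) (fun b hb => mem_product.2 ⟨hs, hb⟩)
    (fun a _ h => ht (mem_product.1 h).1)
    (fun a _ => ⟨fun h => hst.ne (Prod.ext_iff.1 h).1.symm, Or.inr hst.symm, Or.inl rfl⟩)
    (fun a _ b _ hab => ⟨fun h => hab.ne (Prod.ext_iff.1 h).2, Or.inr hst.symm, Or.inr hab⟩)
    (fun a _ b _ hab => ⟨fun h => hab.ne (Prod.ext_iff.1 h).2, Or.inl rfl, Or.inr hab⟩) hB hr
  convert h using 1
  ext ⟨x, y⟩
  simp only [mem_union, mem_image, Prod.mk.injEq, mem_product, mem_insert]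
  constructor
  · rintro ⟨rfl | h1, h2⟩
    · exact Or.inl ⟨y, h2, rfl, rfl⟩
    · exact Or.inr ⟨h1, h2⟩
  · rintro (⟨a, ha, rfl, rfl⟩ | ⟨h1, h2⟩)
    · exact ⟨Or.inl rfl, ha⟩
    · exact ⟨Or.inr h1, h2⟩

open Classical in
theorem growR_all {c : ℕ} {p : α × β → Fin 3 → ℝ} (hp : MG p) {A : Finset α}
    (hA : Fat G₁ A) (h2 : G₂.Connected) : ∀ (n : ℕ) (B : Finset β), Bᶜ.card = n → B.Nonempty →
    rc c p (strong G₁ G₂) (A ×ˢ B) → rc c p (strong G₁ G₂) (A ×ˢ univ) := by
  intro n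
  induction n with
  | zero =>
    intro B hB _ hr
    rw [card_eq_zero, compl_eq_empty_iff] at hB
    rwa [hB] at hr
  | succ n ih =>
    intro B hB hne hr
    obtain ⟨b, hb⟩ := hne
    obtain ⟨z, hz⟩ : Bᶜ.Nonempty := card_pos.1 (by omega)
    obtain ⟨x, y, hx, hy, hxy⟩ := exists_leave h2 hb (mem_compl.1 hz)
    refine ih (insert y B) ?_ ⟨y, mem_insert_self _ _⟩ (growR hp hA hx hy hxy hr)
    rw [compl_insert, card_erase_of_mem (mem_compl.2 hy), hB]
    rfl

open Classical in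
theorem growL_all {c : ℕ} {p : α × β → Fin 3 → ℝ} (hp : MG p) {B : Finset β}
    (hB : Fat G₂ B) (h1 : G₁.Connected) : ∀ (n : ℕ) (A : Finset α), Aᶜ.card = n → A.Nonempty →
    rc c p (strong G₁ G₂) (A ×ˢ B) → rc c p (strong G₁ G₂) (univ ×ˢ B) := by
  intro n
  induction n with
  | zero =>
    intro A hA _ hr
    rw [card_eq_zero, compl_eq_empty_iff] at hA
    rwa [hA] at hr
  | succ n ih =>
    intro A hA hne hr
    obtain ⟨b, hb⟩ := hne
    obtain ⟨z, hz⟩ : Aᶜ.Nonempty := card_pos.1 (by omega)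
    obtain ⟨x, y, hx, hy, hxy⟩ := exists_leave h1 hb (mem_compl.1 hz)
    refine ih (insert y A) ?_ ⟨y, mem_insert_self _ _⟩ (growL hp hB hx hy hxy hr)
    rw [compl_insert, card_erase_of_mem (mem_compl.2 hy), hA]
    rfl

open Classical in
theorem fat_univ {ι : Type} [Fintype ι] {H : SimpleGraph ι} (hH : H.Connected) :
    ∀ (n : ℕ) (A : Finset ι), Aᶜ.card = n → A.Nonempty → Fat H A → Fat H univ := by
  intro n
  induction n with
  | zero =>
    intro A hA _ hr
    rw [card_eq_zero, compl_eq_empty_iff] at hA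
    rwa [hA] at hr
  | succ n ih =>
    intro A hA hne hr
    obtain ⟨b, hb⟩ := hne
    obtain ⟨z, hz⟩ : Aᶜ.Nonempty := card_pos.1 (by omega)
    obtain ⟨x, y, hx, hy, hxy⟩ := exists_leave hH hb (mem_compl.1 hz)
    refine ih (insert y A) ?_ ⟨y, mem_insert_self _ _⟩ (hr.insert hy hx hxy)
    rw [compl_insert, card_erase_of_mem (mem_compl.2 hy), hA]
    rfl

open Classical in
/-- from a core to the whole product -/
theorem grow {c : ℕ} {p : α × β → Fin 3 → ℝ} (hp : MG p) (h1 : G₁.Connected)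
    (h2 : G₂.Connected) {A : Finset α} {B : Finset β} (hA : Fat G₁ A) (hB : Fat G₂ B)
    (hAn : A.Nonempty) (hBn : B.Nonempty) (hr : rc c p (strong G₁ G₂) (A ×ˢ B)) :
    mo (strong G₁ G₂) p ≤ c := by
  have e1 := growR_all hp hA h2 _ B rfl hBn hr
  have e2 := growL_all hp (fat_univ h2 _ B rfl hBn hB) h1 _ A rfl hAn e1
  rw [univ_product_univ] at e2
  exact rc_univ.1 e2

end product

end Pool.Agent.R487.Rig
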