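import Pool.Agent.R487.Rig.Main

/-!
# Strong products with a factor with three vertices (helper487)
-/

set_option autoImplicit false

namespace Pool.Agent.R487.Rig

open Finset Pool.Agent.H789R5 Pool.Agent.H283R2.DR Pool.Agent.TH349.Rig Pool.Agent.TH409.RG

def path3 : List (Fin 3 × Fin 3) := [(0, 1), (1, 2)]

section gen

variable {V : Type} [Fintype V]

open Classical in
theorem e0' [inst : DecidableEq V] {p : V → Fin 3 → ℝ} (hp : MG p) {G : SimpleGraph V} {U : Finset V}
    {v x y z : V} (hv : v ∉ U) (hx : x ∈ U) (hy : y ∈ U) (hz : z ∈ U) (hxy : x ≠ y) (hxz : x ≠ z)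
    (hyz : y ≠ z) (h1 : G.Adj v x) (h2 : G.Adj v y) (h3 : G.Adj v z) (hr : ri p G U) :
    ri p G (insert v U) := by
  have hi : inst = fun a b => Classical.propDecidable (a = b) := Subsingleton.elim _ _
  subst hi
  have h := ri_ext0 hp (T := {x, y, z}) hv ?_ ?_ ?_ hr
  · exact h
  · intro w hw
    simp only [mem_insert, mem_singleton] at hw
    rcases hw with rfl | rfl | rfl <;> assumption
  · rw [card_eq_three]
    exact ⟨x, y, z, hxy, hxz, hyz, rfl⟩
  · intro w hw
    simp only [mem_insert, mem_singleton] at hw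
    rcases hw with rfl | rfl | rfl <;> assumption

open Classical in
theorem e1' [inst : DecidableEq V] {p : V → Fin 3 → ℝ} (hp : MG p) {G : SimpleGraph V} {U : Finset V}
    {v w z x y : V} (hv : v ∉ U) (hw : w ∈ U) (hz : z ∈ U) (hx : x ∈ U) (hy : y ∈ U)
    (hwz : w ≠ z) (hwx : w ≠ x) (hwy : w ≠ y) (hzx : z ≠ x) (hzy : z ≠ y) (hxy : x ≠ y)
    (h1 : G.Adj v w) (h2 : G.Adj v z) (h3 : G.Adj v x) (h4 : G.Adj v y)
    (hr : ri p (G ⊔ SimpleGraph.edge x y) U) : ri p G (insert v U) := by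
  have hi : inst = fun a b => Classical.propDecidable (a = b) := Subsingleton.elim _ _
  subst hi
  have h := ri_ext1 hp (N := {w, z, x, y}) (x := x) (y := y) hv ?_ ?_ ?_ (by simp) (by simp)
    hxy hr
  · exact h
  · intro u hu
    simp only [mem_insert, mem_singleton] at hu
    rcases hu with rfl | rfl | rfl | rfl <;> assumption
  · rw [card_insert_of_notMem (by simp [hwz, hwx, hwy]),
      card_insert_of_notMem (by simp [hzx, hzy]), card_pair hxy]
  · intro u hu
    simp only [mem_insert, mem_singleton] at hu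
    rcases hu with rfl | rfl | rfl | rfl <;> assumption

end gen

section product

variable {α β : Type} [Fintype α] [Fintype β] {G₁ : SimpleGraph α} {G₂ : SimpleGraph β}

omit [Fintype β] in
theorem fat_three [DecidableEq β] {c l r : β} (hlr : l ≠ r) (hcl : G₂.Adj c l) (hcr : G₂.Adj c r) :
    Fat G₂ {c, l, r} := by
  have hc : N2 G₂ {c, l, r} c :=
    ⟨l, by simp, r, by simp, hlr, hcl, hcr⟩
  intro a ha
  simp only [mem_insert, mem_singleton] at ha
  rcases ha with rfl | rfl | rfl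
  · exact Or.inl hc
  · exact Or.inr ⟨c, by simp, hcl.symm, hc⟩
  · exact Or.inr ⟨c, by simp, hcr.symm, hc⟩

open Classical in
/-- the closed strip -/
theorem cycleCore {p : α × β → Fin 3 → ℝ} (hp : MG p) (v : ℕ → α) {c l r : β} (hlr : l ≠ r)
    (hcl : G₂.Adj c l) (hcr : G₂.Adj c r) (n : ℕ) :
    (∀ i < n + 3, ∀ j < n + 3, v i = v j → i = j) → ∀ G : SimpleGraph (α × β),
    (∀ i, i + 1 < n + 3 → ∀ s t, (s = t ∨ G₂.Adj s t) → G.Adj (v i, s) (v (i + 1), t)) →
    (∀ i < n + 3, ∀ s t, G₂.Adj s t → G.Adj (v i, s) (v i, t)) →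
    G.Adj (v (n + 2), c) (v 0, c) →
    ri p G (((range (n + 3)).image v) ×ˢ {c, l, r}) := by
  have hcl' := hcl.ne
  have hcr' := hcr.ne
  induction n with
  | zero =>
    intro hv G h1 h2 h3
    let a : Fin 3 ↪ α := ⟨fun i => v i, fun i j h => Fin.ext (hv i i.2 j j.2 h)⟩
    let b : Fin 3 ↪ β := ⟨![l, c, r], by
      intro i j hij
      fin_cases i <;> fin_cases j <;> simp_all⟩
    have hb : ∀ i j, (gr path3).Adj i j → G₂.Adj (b i) (b j) := by
      intro i j h
      fin_cases i <;> fin_cases j <;> first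
        | exact absurd h (by decide)
        | exact hcl
        | exact hcl.symm
        | exact hcr
        | exact hcr.symm
    have hcert := certC hp (pe 3 3 a b) G ?_
    · have e := map_pe 3 3 a b
      have e2 : (univ : Finset (Fin (3 * 3))).map (pe 3 3 a b) =
          ((range 3).image v) ×ˢ {c, l, r} := by
        rw [e]
        ext ⟨x, y⟩
        simp only [mem_product, mem_map, mem_univ, true_and, mem_image, mem_range, mem_insert,
          mem_singleton]
        constructor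
        · rintro ⟨⟨i, rfl⟩, ⟨j, rfl⟩⟩
          refine ⟨⟨i, i.2, rfl⟩, ?_⟩
          fin_cases j
          · exact Or.inr (Or.inl rfl)
          · exact Or.inl rfl
          · exact Or.inr (Or.inr rfl)
        · rintro ⟨⟨i, hi, rfl⟩, hy⟩
          refine ⟨⟨⟨i, hi⟩, rfl⟩, ?_⟩
          rcases hy with rfl | rfl | rfl
          · exact ⟨1, rfl⟩
          · exact ⟨0, rfl⟩
          · exact ⟨2, rfl⟩
      have e3 : ri p G ((univ : Finset (Fin (3 * 3))).map (pe 3 3 a b)) := hcert
      rw [e2] at e3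
      exact e3
    · intro (k : Fin (3 * 3)) (m : Fin (3 * 3)) hkm
      have hk3 : ((Fin.divNat (m := 3) (n := 3) k : Fin 3) : ℕ) < 3 := Fin.isLt _
      have hm3 : ((Fin.divNat (m := 3) (n := 3) m : Fin 3) : ℕ) < 3 := Fin.isLt _
      have key : ∀ k m : Fin (3 * 3), (gr LC).Adj k m →
          (k.divNat = m.divNat ∧ (gr path3).Adj k.modNat m.modNat) ∨
          ((k.divNat : ℕ) + 1 = m.divNat ∧
            (k.modNat = m.modNat ∨ (gr path3).Adj k.modNat m.modNat)) ∨
          ((m.divNat : ℕ) + 1 = k.divNat ∧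
            (m.modNat = k.modNat ∨ (gr path3).Adj m.modNat k.modNat)) ∨
          (k.divNat = 2 ∧ k.modNat = 1 ∧ m.divNat = 0 ∧ m.modNat = 1) ∨
          (m.divNat = 2 ∧ m.modNat = 1 ∧ k.divNat = 0 ∧ k.modNat = 1) := by decide
      have hφ : ∀ k : Fin (3 * 3), pe 3 3 a b k = (v k.divNat, b k.modNat) := fun k => rfl
      show G.Adj (pe 3 3 a b k) (pe 3 3 a b m)
      rw [hφ, hφ]
      rcases key k m hkm with ⟨h, h'⟩ | ⟨h, h'⟩ | ⟨h, h'⟩ | ⟨h, h', h'', h'''⟩ | ⟨h, h', h'', h'''⟩
      · rw [h]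
        exact h2 _ hm3 _ _ (hb _ _ h')
      · rw [← h]
        exact h1 _ (by rw [h]; exact hm3) _ _ (h'.imp (congrArg b) (hb _ _))
      · rw [← h]
        exact (h1 _ (by rw [h]; exact hk3) _ _ (h'.imp (congrArg b) (hb _ _))).symm
      · rw [h, h', h'', h''']
        exact h3
      · rw [h, h', h'', h''']
        exact h3.symm
  | succ n ih =>
    intro hv G h1 h2 h3
    have hne : v (n + 2) ≠ v 0 := fun h => by
      have := hv (n + 2) (by omega) 0 (by omega) h
      omega
    have e0 := ih (fun i hi j hj h => hv i (by omega) j (by omega) h)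
      (G ⊔ SimpleGraph.edge (v (n + 2), c) (v 0, c))
      (fun i hi s t hst => Or.inl (h1 i (by omega) s t hst))
      (fun i hi s t hst => Or.inl (h2 i (by omega) s t hst))
      (Or.inr (by
        rw [SimpleGraph.edge_adj]
        exact ⟨Or.inl ⟨rfl, rfl⟩, fun h => hne (Prod.ext_iff.1 h).1⟩))
    set U := ((range (n + 3)).image v) ×ˢ ({c, l, r} : Finset β) with hU
    have hvU : ∀ s, (v (n + 3), s) ∉ U := by
      intro s h
      rw [hU, mem_product, mem_image] at h
      obtain ⟨⟨i, hi, hi'⟩, -⟩ := h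
      rw [mem_range] at hi
      have := hv i (by omega) (n + 3) (by omega) hi'
      omega
    have hUm : ∀ i < n + 3, ∀ s ∈ ({c, l, r} : Finset β), (v i, s) ∈ U := fun i hi s hs =>
      mem_product.2 ⟨mem_image_of_mem v (mem_range.2 hi), hs⟩
    have hnear : ∀ s t, (s = t ∨ G₂.Adj s t) → G.Adj (v (n + 3), t) (v (n + 2), s) :=
      fun s t hst => (h1 (n + 2) (by omega) s t hst).symm
    have ncl : ∀ x y : α, ((x, c) : α × β) ≠ (y, l) := fun x y h => hcl' (Prod.ext_iff.1 h).2
    have ncr : ∀ x y : α, ((x, c) : α × β) ≠ (y, r) := fun x y h => hcr' (Prod.ext_iff.1 h).2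
    have nlr : ∀ x y : α, ((x, l) : α × β) ≠ (y, r) := fun x y h => hlr (Prod.ext_iff.1 h).2
    have nvv : ∀ s t : β, ((v (n + 2), s) : α × β) ≠ (v 0, t) :=
      fun s t h => hne (Prod.ext_iff.1 h).1
    have hne2 : v (n + 2) ≠ v (n + 3) := fun h => by
      have := hv (n + 2) (by omega) (n + 3) (by omega) h
      omega
    have nvw : ∀ s t : β, ((v (n + 2), s) : α × β) ≠ (v (n + 3), t) :=
      fun s t h => hne2 (Prod.ext_iff.1 h).1
    have ml : l ∈ ({c, l, r} : Finset β) := by simp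
    have mr : r ∈ ({c, l, r} : Finset β) := by simp
    have mc : c ∈ ({c, l, r} : Finset β) := by simp
    have h20 : n + 2 < n + 3 := by omega
    have e1 : ri p G (insert (v (n + 3), c) U) :=
      e1' hp (hvU c) (hUm (n + 2) h20 l ml) (hUm (n + 2) h20 r mr) (hUm (n + 2) h20 c mc)
        (hUm 0 (by omega) c mc) (nlr _ _) (ncl _ _).symm (nvv _ _) (ncr _ _).symm (nvv _ _)
        (nvv _ _) (hnear _ _ (Or.inr hcl.symm)) (hnear _ _ (Or.inr hcr.symm))
        (hnear _ _ (Or.inl rfl)) h3 e0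
    have e2 : ri p G (insert (v (n + 3), l) (insert (v (n + 3), c) U)) :=
      e0' hp (by rw [mem_insert, not_or]; exact ⟨(ncl _ _).symm, hvU l⟩)
        (mem_insert_of_mem (hUm (n + 2) h20 l ml)) (mem_insert_of_mem (hUm (n + 2) h20 c mc))
        (mem_insert_self _ _) (ncl _ _).symm (ncl _ _).symm (nvw _ _)
        (hnear _ _ (Or.inl rfl)) (hnear _ _ (Or.inr hcl)) (h2 (n + 3) (by omega) _ _ hcl.symm) e1
    have e3 : ri p G (insert (v (n + 3), r) (insert (v (n + 3), l) (insert (v (n + 3), c) U))) :=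
      e0' hp (by rw [mem_insert, mem_insert, not_or, not_or]
                 exact ⟨(nlr _ _).symm, (ncr _ _).symm, hvU r⟩)
        (mem_insert_of_mem (mem_insert_of_mem (hUm (n + 2) h20 r mr)))
        (mem_insert_of_mem (mem_insert_of_mem (hUm (n + 2) h20 c mc)))
        (mem_insert_of_mem (mem_insert_self _ _)) (ncr _ _).symm (ncr _ _).symm (nvw _ _)
        (hnear _ _ (Or.inl rfl)) (hnear _ _ (Or.inr hcr)) (h2 (n + 3) (by omega) _ _ hcr.symm) e2
    convert e3 using 1
    rw [hU]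
    ext ⟨x, y⟩
    simp only [mem_product, mem_image, mem_range, mem_insert, mem_singleton, Prod.mk.injEq]
    constructor
    · rintro ⟨⟨i, hi, rfl⟩, hy⟩
      by_cases h : i = n + 3
      · subst h
        rcases hy with hy | hy | hy
        · exact Or.inr (Or.inr (Or.inl ⟨rfl, hy⟩))
        · exact Or.inr (Or.inl ⟨rfl, hy⟩)
        · exact Or.inl ⟨rfl, hy⟩
      · exact Or.inr (Or.inr (Or.inr ⟨⟨i, by omega, rfl⟩, hy⟩))
    · rintro (⟨hx, hy⟩ | ⟨hx, hy⟩ | ⟨hx, hy⟩ | ⟨⟨i, hi, hx⟩, hy⟩)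
      · exact ⟨⟨n + 3, by omega, hx.symm⟩, Or.inr (Or.inr hy)⟩
      · exact ⟨⟨n + 3, by omega, hx.symm⟩, Or.inr (Or.inl hy)⟩
      · exact ⟨⟨n + 3, by omega, hx.symm⟩, Or.inl hy⟩
      · exact ⟨⟨i, by omega, hx⟩, hy⟩

end product

end Pool.Agent.R487.Rig
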