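import Pool.Agent.R487.Rig.Low
import Pool.Agent.TH349.Rig.Count

/-!
# A rigid part in which each other vertex has two neighbours: the rank (helper487)
-/

set_option autoImplicit false

namespace Pool.Agent.R487.Rig

open Finset Matrix Pool.Agent.H789R5 Pool.Agent.H283R2.DR Pool.Agent.TH349.Rig

variable {V : Type} [Fintype V]

theorem rc_of_rigidOn {p : V → Fin 3 → ℝ} {G : SimpleGraph V} {R : Finset V}
    (h : RigidOn G (R : Set V) p) : rc 6 p G R := by
  classical
  let ρ : (V → Fin 3 → ℝ) →ₗ[ℝ] (R → Fin 3 → ℝ) :=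
    LinearMap.funLeft ℝ (Fin 3 → ℝ) (Subtype.val : R → V)
  have hρ : Function.Surjective ρ :=
    LinearMap.funLeft_surjective_of_injective _ _ _ Subtype.val_injective
  have h1 := LinearMap.finrank_range_add_finrank_ker ρ
  rw [LinearMap.range_eq_top.2 hρ, finrank_top, finrank_all, finrank_all, Fintype.card_coe] at h1
  have h2 : Mot (ins G R) p ≤ LinearMap.range (TA.triv p) ⊔ LinearMap.ker ρ := by
    intro q hq
    rw [mem_mot] at hq
    obtain ⟨A, b, hA, hb⟩ := h q (fun u hu v hv huv => hq u v ⟨huv, hu, hv⟩)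
    rw [Submodule.mem_sup]
    refine ⟨TA.triv p (⟨A, hA⟩, b), ⟨_, rfl⟩, q - TA.triv p (⟨A, hA⟩, b), ?_, by abel⟩
    rw [LinearMap.mem_ker]
    funext v
    have := hb v v.2
    change q v - (A *ᵥ p v + b) = 0
    rw [this, sub_self]
  have h3 := Submodule.finrank_mono h2
  have h4 := Submodule.finrank_add_le_finrank_add_finrank (LinearMap.range (TA.triv p))
    (LinearMap.ker ρ)
  have h5 : Module.finrank ℝ (LinearMap.range (TA.triv p)) ≤ 3 * (3 + 1) / 2 := by
    rw [← finrank_triv 3]
    exact LinearMap.finrank_range_le _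
  unfold rc mo
  omega

/-- the rank -/
theorem rank_two {G : SimpleGraph V} {R : Finset V} (h3 : 3 ≤ R.card)
    (hR : GenRigid 3 (G.induce (R : Set V))) (hdom : ∀ v ∉ R, 2 ≤ (nb G R v).card) :
    genRank 3 G + 6 + Nat.card {C // IsBad G R C} = 3 * Fintype.card V ∧
    (GenRigid 3 G ↔ ∀ C, ¬ IsBad G R C) := by
  obtain ⟨p, hp⟩ := exists_mg V 3
  have hrc := rc_of_rigidOn ((hp.toGen.genRigid_induce_iff G _).1 hR)
  have h1 := mo_upper hp hdom hrc
  have h2 := mo_lower hp (G := G) h3
  have h0 := genRank_add hp G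
  have h4 : 3 ≤ Fintype.card V := h3.trans (by rw [← card_univ]; exact card_le_card (subset_univ _))
  refine ⟨by omega, ?_⟩
  rw [genRigid_iff hp h4]
  have hfin : Finite {C // IsBad G R C} := inferInstance
  constructor
  · intro h C hC
    have h5 : 0 < Nat.card {C // IsBad G R C} := by
      rw [Nat.card_pos_iff]
      exact ⟨⟨⟨C, hC⟩⟩, hfin⟩
    omega
  · intro h
    have h5 : Nat.card {C // IsBad G R C} = 0 := by
      rw [Nat.card_eq_zero]
      left
      exact ⟨fun C => h C.1 C.2⟩
    omega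

end Pool.Agent.R487.Rig
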